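import Pool.Agent.H37.PS.Core

/-!
MT Cl: the sieve with two prescribed primes and a prescribed set `U` of squares (note 5711; adapted from PS/Cl).
-/

set_option autoImplicit false

namespace Pool.Agent.H37.MT

open Finset Polynomial Pool.Agent.H37.PPC Pool.Agent.H37.PPD Pool.Agent.H37.PB Pool.Agent.H37.PP Pool.Agent.H37.PS

/-- all primes of `U` have their square in `h1(m)` or in `h2(m)` -/
def SqD (h1 h2 : ℤ[X]) (U : Finset ℕ) (m : ℤ) : Prop := ∀ l ∈ U, (l : ℤ) ^ 2 ∣ h1.eval m ∨ (l : ℤ) ^ 2 ∣ h2.eval m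

open Classical in
/-- the classes modulo `(∏ U)²` -/
noncomputable def cls (h1 h2 : ℤ[X]) (U : Finset ℕ) : Finset ℕ :=
  (range ((∏ l ∈ U, l) ^ 2)).filter fun c : ℕ => SqD h1 h2 U c

section

variable {h0 h1 h2 : ℤ[X]} {B D : ℕ} {C : ℝ} {w0 w1 w2 : ℕ → ℝ}

theorem loseV {w : ℕ → ℝ} (h0 : ∀ l, 0 ≤ w l) (hD : ∀ l, w l ≤ D) (Z V : Finset ℕ) (hV : ∀ l ∈ V, 1 ≤ l) :
    ∑ l ∈ Z, w l / l - D * V.card ≤ ∑ l ∈ Z \ V, w l / l := by
  have h3 : Z ⊆ (Z \ V) ∪ V := by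
    intro l hl
    rw [mem_union, mem_sdiff]
    by_cases h : l ∈ V
    · exact Or.inr h
    · exact Or.inl ⟨hl, h⟩
  have hn : ∀ l, 0 ≤ w l / l := fun l => div_nonneg (h0 l) (Nat.cast_nonneg _)
  have h4 := sum_le_sum_of_subset_of_nonneg h3 (f := fun l : ℕ => w l / l) (fun l _ _ => hn l)
  rw [sum_union sdiff_disjoint] at h4
  have h5 : ∑ l ∈ V, w l / l ≤ D * V.card := by
    have h6 : ∀ l ∈ V, w l / l ≤ (D : ℝ) := by
      intro l hl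
      have hl1' : (1 : ℝ) ≤ l := by exact_mod_cast hV l hl
      exact (div_le_self (h0 l) hl1').trans (hD l)
    have h7 := sum_le_sum h6
    rw [sum_const, nsmul_eq_mul, mul_comm] at h7
    exact h7
  linarith

theorem zt_sumV (t : Bool) (T : Tr h0 h1 h2 B D C w0 w1 w2) {y : ℕ} (hy : 2 ≤ y) (hBy : B ≤ y) (V : Finset ℕ)
    (hV : ∀ l ∈ V, 1 ≤ l) :
    g0 t y - (D * V.card + ll (B + 1) + C) ≤ ∑ l ∈ zt t (pr (B + 1) (y + 1)) \ V, w0 l / l := by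
  have hB2 := T.hB2
  have hC0 : 0 ≤ C := (abs_nonneg _).trans (T.W0.me 2 2 le_rfl le_rfl)
  have h1 := ll_ge3 (Y := B + 1) (by omega)
  have hD : (0 : ℝ) ≤ D * V.card := by positivity
  cases t
  · have h2 : g0 false y = 0 := by simp [g0]
    rw [h2]
    have h3 : 0 ≤ ∑ l ∈ zt false (pr (B + 1) (y + 1)) \ V, w0 l / l :=
      sum_nonneg fun l _ => div_nonneg (T.W0.nn l) (Nat.cast_nonneg _)
    linarith
  · have h2 : g0 true y = ll y := by simp [g0]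
    have h3 : zt true (pr (B + 1) (y + 1)) = pr (B + 1) (y + 1) := by simp [zt]
    rw [h2, h3]
    have b0 := loseV T.W0.nn T.W0.le (pr (B + 1) (y + 1)) V hV
    have b3 := sum_all T.W0 hB2 hy hBy
    linarith

theorem gen_count (t : Bool) (T : Tr h0 h1 h2 B D C w0 w1 w2) :
    ∃ K : ℝ, 0 < K ∧ ∃ s : ℕ, 0 < s ∧ ∀ (Y y n : ℕ) (M : ℤ), 2 ≤ y → B ≤ y → 0 < n → n * y ^ s ≤ Y →
    ∀ V Z1 Z2 : Finset ℕ, (∀ l ∈ V, 1 ≤ l) → Z1 ⊆ pr (B + 1) (y + 1) → Z2 ⊆ pr (B + 1) (y + 1) →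
    (∀ l ∈ pr (B + 1) (y + 1) \ V, ¬ l ∣ n) → ∀ (R : Finset ℕ) (S : Finset ℤ),
    (∀ m ∈ S, M < m ∧ m ≤ M + Y ∧ (m % n).toNat ∈ R ∧
      (t = true → ∀ l ∈ pr (B + 1) (y + 1), ¬ (l : ℤ) ∣ h0.eval m) ∧
      (∀ l ∈ Z1 \ V, ¬ (l : ℤ) ∣ h1.eval m) ∧ (∀ l ∈ Z2 \ V, ¬ (l : ℤ) ∣ h2.eval m)) →
    (S.card : ℝ) ≤ K * (R.card * Real.exp (3 * D * V.card)) * (Y / n) * (Real.exp (-g0 t y) *
      Real.exp (-(∑ l ∈ Z1, w1 l / l) - ∑ l ∈ Z2, w2 l / l)) := by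
  classical
  obtain ⟨K, hK, s, hs, H⟩ := res_count3 T
  refine ⟨K * Real.exp (ll (B + 1) + C), by positivity, s, hs, ?_⟩
  intro Y y n M hy hBy hn hnY V Z1 Z2 hV hZ1 hZ2 hVn R S hS
  have h3 := H Y y n M hy hn hnY (zt t (pr (B + 1) (y + 1)) \ V) (Z1 \ V) (Z2 \ V)
    (sdiff_subset.trans (zt_sub t _)) (sdiff_subset.trans hZ1) (sdiff_subset.trans hZ2) (by
      intro l hl
      apply hVn l
      rw [mem_sdiff]
      rcases mem_union.1 hl with h | h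
      · exact ⟨zt_sub t _ (mem_sdiff.1 h).1, (mem_sdiff.1 h).2⟩
      rcases mem_union.1 h with h | h
      · exact ⟨hZ1 (mem_sdiff.1 h).1, (mem_sdiff.1 h).2⟩
      · exact ⟨hZ2 (mem_sdiff.1 h).1, (mem_sdiff.1 h).2⟩) R S (by
      intro m hm
      obtain ⟨a1, a2, a3, a0, a4, a5⟩ := hS m hm
      refine ⟨a1, a2, a3, fun l hl => ?_, a4, a5⟩
      have h8 := (mem_sdiff.1 hl).1
      cases t
      · simp [zt] at h8
      · exact a0 rfl l (zt_sub true _ h8))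
  have b0 := zt_sumV t T hy hBy V hV
  have b1 := loseV T.W1.nn T.W1.le Z1 V hV
  have b2 := loseV T.W2.nn T.W2.le Z2 V hV
  have hE : Real.exp (-(∑ l ∈ zt t (pr (B + 1) (y + 1)) \ V, w0 l / l) - (∑ l ∈ Z1 \ V, w1 l / l)
      - ∑ l ∈ Z2 \ V, w2 l / l) ≤
      Real.exp (ll (B + 1) + C) * (Real.exp (3 * D * V.card) * (Real.exp (-g0 t y) *
        Real.exp (-(∑ l ∈ Z1, w1 l / l) - ∑ l ∈ Z2, w2 l / l))) := by
    rw [← Real.exp_add, ← Real.exp_add, ← Real.exp_add]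
    exact Real.exp_le_exp.2 (by linarith)
  refine h3.trans ((mul_le_mul_of_nonneg_left hE (by positivity)).trans (le_of_eq (by ring)))

/-- the number of classes modulo `(∏ U)²` with the roots modulo `p` and `q` -/
theorem cls_pq (U : Finset ℕ) (hU : ∀ l ∈ U, l.Prime) (p q N D1 D2 : ℕ) (hp : p.Prime) (hq : q.Prime) (hpq : p ≠ q)
    (hpU : p ∉ U) (hqU : q ∉ U) (hN : (cls h1 h2 U).card ≤ N) (hD1 : (rt h1 p).card ≤ D1) (hD2 : (rt h2 q).card ≤ D2) :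
    ∃ R : Finset ℕ, R.card ≤ N * (D1 * D2) ∧ ∀ m : ℤ, SqD h1 h2 U m → (p : ℤ) ∣ h1.eval m → (q : ℤ) ∣ h2.eval m →
      (m % (((∏ l ∈ U, l) ^ 2 * (p * q) : ℕ) : ℤ)).toNat ∈ R := by
  classical
  set d := ∏ l ∈ U, l with hd
  have hdpos : 0 < d := prod_pos fun l hl => (hU l hl).pos
  have hpos : 0 < d ^ 2 * (p * q) := Nat.mul_pos (pow_pos hdpos 2) (Nat.mul_pos hp.pos hq.pos)
  have hdvd : ∀ (g : ℤ[X]) (a b n : ℤ), n ∣ a - b → (n ∣ g.eval a ↔ n ∣ g.eval b) := by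
    intro g a b n h
    have h4 : n ∣ g.eval a - g.eval b := h.trans (Polynomial.sub_dvd_eval_sub a b g)
    exact (Int.dvd_iff_dvd_of_dvd_sub h4)
  have hSq : ∀ a b : ℤ, ((d ^ 2 : ℕ) : ℤ) ∣ a - b → SqD h1 h2 U a → SqD h1 h2 U b := by
    intro a b hab h l hl
    have h5 : ((l : ℤ)) ^ 2 ∣ a - b := by
      refine dvd_trans ?_ hab
      have h6 : l ∣ d := dvd_prod_of_mem _ hl
      exact_mod_cast pow_dvd_pow_of_dvd h6 2
    rcases h l hl with h7 | h7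
    · exact Or.inl ((hdvd h1 a b _ h5).1 h7)
    · exact Or.inr ((hdvd h2 a b _ h5).1 h7)
  have hcp : ∀ r : ℕ, r.Prime → r ∉ U → Nat.Coprime (d ^ 2) r := by
    intro r hr hrU
    refine Nat.Coprime.pow_left 2 ?_
    refine Nat.Coprime.prod_left fun l hl => ?_
    refine (Nat.coprime_primes (hU l hl) hr).2 ?_
    rintro rfl
    exact hrU hl
  have hc1 : Nat.Coprime p q := (Nat.coprime_primes hp hq).2 hpq
  have hc2 : Nat.Coprime (d ^ 2) (p * q) := Nat.Coprime.mul_right (hcp p hp hpU) (hcp q hq hqU)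
  set R : Finset ℕ := (range (d ^ 2 * (p * q))).filter fun c : ℕ =>
    SqD h1 h2 U c ∧ (p : ℤ) ∣ h1.eval (c : ℤ) ∧ (q : ℤ) ∣ h2.eval (c : ℤ) with hR
  refine ⟨R, ?_, ?_⟩
  · have h3 : R.card ≤ ((cls h1 h2 U) ×ˢ ((rt h1 p) ×ˢ (rt h2 q))).card := by
      refine card_le_card_of_injOn (fun c => (c % d ^ 2, (c % p, c % q))) ?_ ?_
      · intro c hc'
        rw [hR, coe_filter, Set.mem_ofPred_eq, mem_range] at hc'
        rw [coe_product, Set.mem_prod, mem_coe, coe_product, Set.mem_prod, mem_coe, mem_coe]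
        refine ⟨?_, ?_, ?_⟩
        · rw [cls, mem_filter, mem_range]
          refine ⟨Nat.mod_lt _ (pow_pos hdpos 2), ?_⟩
          refine hSq c _ ?_ hc'.2.1
          show ((d ^ 2 : ℕ) : ℤ) ∣ (c : ℤ) - ((c % d ^ 2 : ℕ) : ℤ)
          rw [Int.natCast_mod]
          exact Int.dvd_self_sub_emod
        · rw [rt, mem_filter, mem_range]
          refine ⟨Nat.mod_lt _ hp.pos, ?_⟩
          refine (hdvd h1 _ c p ?_).2 hc'.2.2.1
          push_cast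
          exact dvd_sub_comm.1 Int.dvd_self_sub_emod
        · rw [rt, mem_filter, mem_range]
          refine ⟨Nat.mod_lt _ hq.pos, ?_⟩
          refine (hdvd h2 _ c q ?_).2 hc'.2.2.2
          push_cast
          exact dvd_sub_comm.1 Int.dvd_self_sub_emod
      · intro c hc' c' hc'' he
        rw [hR, coe_filter, Set.mem_ofPred_eq, mem_range] at hc' hc''
        have he0 : c % d ^ 2 = c' % d ^ 2 := congrArg Prod.fst he
        have he1 : c % p = c' % p := congrArg (fun z => z.2.1) he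
        have he2 : c % q = c' % q := congrArg (fun z => z.2.2) he
        have h5 : c ≡ c' [MOD p * q] := (Nat.modEq_and_modEq_iff_modEq_mul hc1).1 ⟨he1, he2⟩
        have h6 : c ≡ c' [MOD d ^ 2 * (p * q)] := (Nat.modEq_and_modEq_iff_modEq_mul hc2).1 ⟨he0, h5⟩
        exact Nat.ModEq.eq_of_lt_of_lt h6 hc'.1 hc''.1
    rw [card_product, card_product] at h3
    exact h3.trans (Nat.mul_le_mul hN (Nat.mul_le_mul hD1 hD2))
  · intro m hm hpm hqm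
    have h5 : (0 : ℤ) ≤ m % ((d ^ 2 * (p * q) : ℕ) : ℤ) := Int.emod_nonneg m (by exact_mod_cast hpos.ne')
    have h6 : m % ((d ^ 2 * (p * q) : ℕ) : ℤ) < ((d ^ 2 * (p * q) : ℕ) : ℤ) := Int.emod_lt_of_pos m (by exact_mod_cast hpos)
    have h7 : ((d ^ 2 * (p * q) : ℕ) : ℤ) ∣ m - m % ((d ^ 2 * (p * q) : ℕ) : ℤ) := Int.dvd_self_sub_emod
    rw [hR, mem_filter, mem_range, Int.toNat_of_nonneg h5]
    refine ⟨by omega, ?_, ?_, ?_⟩
    · refine hSq m _ ?_ hm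
      exact (Dvd.intro ((p * q : ℕ) : ℤ) (by push_cast; ring)).trans h7
    · refine (hdvd h1 m _ p ?_).1 hpm
      exact (Dvd.intro ((d ^ 2 * q : ℕ) : ℤ) (by push_cast; ring)).trans h7
    · refine (hdvd h2 m _ q ?_).1 hqm
      exact (Dvd.intro ((d ^ 2 * p : ℕ) : ℤ) (by push_cast; ring)).trans h7

theorem cls_all (U : Finset ℕ) (hU : ∀ l ∈ U, l.Prime) : ∀ m : ℤ, SqD h1 h2 U m →
      (m % (((∏ l ∈ U, l) ^ 2 : ℕ) : ℤ)).toNat ∈ cls h1 h2 U := by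
  classical
  set d := ∏ l ∈ U, l with hd
  have hdpos : 0 < d := prod_pos fun l hl => (hU l hl).pos
  have hpos : 0 < d ^ 2 := pow_pos hdpos 2
  intro m hm
  have h5 : (0 : ℤ) ≤ m % ((d ^ 2 : ℕ) : ℤ) := Int.emod_nonneg m (by exact_mod_cast hpos.ne')
  have h6 : m % ((d ^ 2 : ℕ) : ℤ) < ((d ^ 2 : ℕ) : ℤ) := Int.emod_lt_of_pos m (by exact_mod_cast hpos)
  have h7 : ((d ^ 2 : ℕ) : ℤ) ∣ m - m % ((d ^ 2 : ℕ) : ℤ) := Int.dvd_self_sub_emod
  rw [cls, ← hd, mem_filter, mem_range, Int.toNat_of_nonneg h5]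
  refine ⟨by omega, fun l hl => ?_⟩
  have h9 : ((l : ℤ)) ^ 2 ∣ m - m % ((d ^ 2 : ℕ) : ℤ) := by
    refine dvd_trans ?_ h7
    have h6 : l ∣ d := dvd_prod_of_mem _ hl
    exact_mod_cast pow_dvd_pow_of_dvd h6 2
  have hdvd : ∀ (g : ℤ[X]), ((l : ℤ)) ^ 2 ∣ g.eval m → ((l : ℤ)) ^ 2 ∣ g.eval (m % ((d ^ 2 : ℕ) : ℤ)) := by
    intro g hg
    have h4 : ((l : ℤ)) ^ 2 ∣ g.eval m - g.eval (m % ((d ^ 2 : ℕ) : ℤ)) := h9.trans (Polynomial.sub_dvd_eval_sub _ _ g)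
    exact (Int.dvd_iff_dvd_of_dvd_sub h4).1 hg
  rcases hm l hl with h | h
  · exact Or.inl (hdvd h1 h)
  · exact Or.inr (hdvd h2 h)

end

end Pool.Agent.H37.MT
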