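import Pool.Agent.H37.MT.Rt
import Pool.Agent.H37.PS.Sqs
import Pool.Agent.H37.PS.Sq

/-!
MT Lg: few `m` with many squares (note 5711).  As part (b) of the proof of `sq_sharp` (PS/Sq): a subset `T'` with `y < ∏ T' ≤ y²`, `roots_two`, `sums_sqf`.
-/

set_option autoImplicit false

namespace Pool.Agent.H37.MT

open Finset Polynomial Pool.Agent.H37.PPC Pool.Agent.H37.PPD Pool.Agent.H37.PB Pool.Agent.H37.PP Pool.Agent.H37.PS

private theorem lg_card_class (M : ℤ) (Y n : ℕ) (hn : 0 < n) (v : ℤ) :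
    (((Finset.Ioc M (M + Y)).filter fun x : ℤ => x ≡ v [ZMOD n]).card : ℝ) ≤ (Y : ℝ) / n + 1 := by
  have hn' : (0 : ℤ) < n := by exact_mod_cast hn
  have h := Int.Ioc_filter_modEq_card M (M + Y) hn' v
  have hnq : (0 : ℚ) < n := by exact_mod_cast hn
  set a := ⌊(((M + Y : ℤ) : ℚ) - v) / ((n : ℤ) : ℚ)⌋ with ha
  set b := ⌊((M : ℚ) - v) / ((n : ℤ) : ℚ)⌋ with hb
  have h1 : (a : ℚ) ≤ (((M + Y : ℤ) : ℚ) - v) / ((n : ℤ) : ℚ) := Int.floor_le _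
  have h2 : ((M : ℚ) - v) / ((n : ℤ) : ℚ) < b + 1 := Int.lt_floor_add_one _
  have h3 : ((a - b : ℤ) : ℚ) ≤ (Y : ℚ) / n + 1 := by
    push_cast at h1 h2 ⊢
    have h4 : ((M : ℚ) + Y - v) / n = ((M : ℚ) - v) / n + Y / n := by
      rw [← add_div]
      congr 1
      ring
    rw [h4] at h1
    linarith
  have h5 : (((((Finset.Ioc M (M + Y)).filter fun x : ℤ => x ≡ v [ZMOD n]).card : ℤ)) : ℚ) ≤
      (Y : ℚ) / n + 1 := by
    rw [h]
    rcases le_total (a - b) 0 with h6 | h6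
    · rw [max_eq_right h6]
      push_cast
      positivity
    · rw [max_eq_left h6]
      exact h3
  have h7 : ((((Finset.Ioc M (M + Y)).filter fun x : ℤ => x ≡ v [ZMOD n]).card : ℚ)) ≤
      (Y : ℚ) / n + 1 := by
    exact_mod_cast h5
  have h8 : (((((Finset.Ioc M (M + Y)).filter fun x : ℤ => x ≡ v [ZMOD n]).card : ℚ) : ℝ)) ≤
      (((Y : ℚ) / n + 1 : ℚ) : ℝ) := Rat.cast_le.2 h7
  push_cast at h8
  exact h8

open Classical in
/-- counting over the classes -/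
private theorem lg_fib (p : ℤ → Prop) (n : ℕ) (hn : 0 < n)
    (hp : ∀ x y : ℤ, (n : ℤ) ∣ x - y → p x → p y) (S : Finset ℤ) (N : ℕ) (b : ℝ) (hb : 0 ≤ b)
    (hR : ((range n).filter fun c : ℕ => p (c : ℤ)).card ≤ N)
    (hS : ∀ m ∈ S, p m)
    (hc : ∀ c : ℕ, ((S.filter fun m : ℤ => ((n : ℕ) : ℤ) ∣ m - c).card : ℝ) ≤ b) :
    (S.card : ℝ) ≤ N * b := by
  have hn0 : (0 : ℤ) < n := by exact_mod_cast hn
  have hmap : ∀ m ∈ S, (m % (n : ℤ)).toNat ∈ ((range n).filter fun c : ℕ => p (c : ℤ)) := by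
    intro m hm
    have h1 : 0 ≤ m % (n : ℤ) := Int.emod_nonneg _ hn0.ne'
    have h2 : m % (n : ℤ) < n := Int.emod_lt_of_pos _ hn0
    rw [mem_filter, mem_range]
    refine ⟨by omega, ?_⟩
    rw [Int.toNat_of_nonneg h1]
    exact hp m (m % (n : ℤ)) Int.dvd_self_sub_emod (hS m hm)
  have hfib : ∀ r ∈ ((range n).filter fun c : ℕ => p (c : ℤ)),
      ((S.filter fun m : ℤ => (m % (n : ℤ)).toNat = r).card : ℝ) ≤ b := by
    intro r _
    refine le_trans ?_ (hc r)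
    have h0 : (S.filter fun m : ℤ => (m % (n : ℤ)).toNat = r) ⊆
        S.filter fun m : ℤ => ((n : ℕ) : ℤ) ∣ m - r := by
      intro m hm
      rw [mem_filter] at hm ⊢
      refine ⟨hm.1, ?_⟩
      have h1 : 0 ≤ m % (n : ℤ) := Int.emod_nonneg _ hn0.ne'
      have h4 : m % (n : ℤ) = r := by
        have := hm.2
        omega
      rw [← h4]
      exact Int.dvd_self_sub_emod
    exact_mod_cast card_le_card h0
  have hcard : (S.card : ℝ) = ∑ r ∈ ((range n).filter fun c : ℕ => p (c : ℤ)),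
      ((S.filter fun m : ℤ => (m % (n : ℤ)).toNat = r).card : ℝ) := by
    rw [card_eq_sum_card_fiberwise hmap]
    push_cast
    rfl
  rw [hcard]
  calc _ ≤ ∑ _r ∈ ((range n).filter fun c : ℕ => p (c : ℤ)), b := sum_le_sum hfib
    _ = (((range n).filter fun c : ℕ => p (c : ℤ)).card : ℝ) * b := by
        rw [sum_const, nsmul_eq_mul]
    _ ≤ N * b := mul_le_mul_of_nonneg_right (by exact_mod_cast hR) hb

/-- a subset with product between `y` and `y²` -/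
private theorem lg_mid (T : Finset ℕ) (y : ℕ) (hy : 1 ≤ y) (hT : ∀ l ∈ T, l ≤ y)
    (h : y < ∏ l ∈ T, l) : ∃ T' ⊆ T, y < ∏ l ∈ T', l ∧ ∏ l ∈ T', l ≤ y ^ 2 := by
  classical
  induction T using Finset.induction_on with
  | empty =>
    rw [prod_empty] at h
    omega
  | insert a T ha ih =>
    by_cases h1 : y < ∏ l ∈ T, l
    · obtain ⟨T', hT', h2⟩ := ih (fun l hl => hT l (mem_insert_of_mem hl)) h1
      exact ⟨T', hT'.trans (subset_insert _ _), h2⟩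
    · refine ⟨insert a T, Subset.rfl, h, ?_⟩
      rw [prod_insert ha]
      have := hT a (mem_insert_self _ _)
      calc a * ∏ l ∈ T, l ≤ y * y := Nat.mul_le_mul this (not_lt.1 h1)
        _ = y ^ 2 := (sq y).symm

theorem large_T (h1 h2 : ℤ[X]) (hi1 : Irreducible h1) (hd1 : 1 ≤ h1.natDegree) (hi2 : Irreducible h2)
    (hd2 : 1 ≤ h2.natDegree) :
    ∃ B : ℕ, ∃ C : ℝ, 0 < C ∧ ∀ (Y y : ℕ) (M : ℤ), 2 ≤ y → ∀ S : Finset ℤ,
      (∀ m ∈ S, M < m ∧ m ≤ M + Y ∧ ∃ T : Finset ℕ, T ⊆ pr (B + 1) (y + 1) ∧ y < ∏ l ∈ T, l ∧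
        ∀ l ∈ T, (l : ℤ) ^ 2 ∣ h1.eval m ∨ (l : ℤ) ^ 2 ∣ h2.eval m) →
      (S.card : ℝ) ≤ C * (Y / Real.sqrt y + y ^ 3) := by
  classical
  obtain ⟨B, D, hD1, hBD⟩ := roots_two h1 h2 hi1 hd1 hi2 hd2
  obtain ⟨C, hC, hsum⟩ := sums_sqf (D : ℝ) (Nat.cast_nonneg D)
  refine ⟨B, C, hC, fun Y y M hy S hS => ?_⟩
  obtain ⟨-, hs2, hs3⟩ := hsum y hy
  set P := pr (B + 1) (y + 1) with hP
  have hPm : ∀ l ∈ P, l.Prime ∧ B < l ∧ l ≤ y := by
    intro l hl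
    rw [hP, mem_pr] at hl
    exact ⟨hl.2, by omega, by omega⟩
  have hP2 : P ⊆ pr 2 (y + 1) := by
    intro l hl
    have := hPm l hl
    rw [mem_pr]
    exact ⟨⟨this.1.two_le, by omega⟩, this.1⟩
  have hpos : ∀ T ⊆ P, 0 < ∏ l ∈ T, l := fun T hT =>
    prod_pos fun l hl => (hPm l (hT hl)).1.pos
  let q : Finset ℕ → ℤ → Prop := fun T m => ∀ l ∈ T, (l : ℤ) ^ 2 ∣ h1.eval m ∨ (l : ℤ) ^ 2 ∣ h2.eval m
  have hqper : ∀ T : Finset ℕ, ∀ x z : ℤ, (((∏ l ∈ T, l) ^ 2 : ℕ) : ℤ) ∣ x - z → q T x → q T z := by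
    intro T x z hxz hx l hl
    have h3 : (l : ℤ) ^ 2 ∣ x - z := by
      refine dvd_trans ?_ hxz
      have h4 : l ^ 2 ∣ (∏ l ∈ T, l) ^ 2 := pow_dvd_pow_of_dvd (dvd_prod_of_mem _ hl) 2
      have h5 := Int.natCast_dvd_natCast.2 h4
      rwa [Nat.cast_pow] at h5
    rcases hx l hl with h4 | h4
    · exact Or.inl ((dvd_eval_congr h1 _ x z h3).1 h4)
    · exact Or.inr ((dvd_eval_congr h2 _ x z h3).1 h4)
  set I := P.powerset.filter fun T : Finset ℕ => y < ∏ l ∈ T, l ∧ ∏ l ∈ T, l ≤ y ^ 2 with hI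
  have hsub : S ⊆ I.biUnion fun T => (Finset.Ioc M (M + Y)).filter fun m : ℤ => q T m := by
    intro m hm
    obtain ⟨hm1, hm2, T, hT, hyT, hTm⟩ := hS m hm
    obtain ⟨T', hT', h4, h5⟩ := lg_mid T y (by omega) (fun l hl => (hPm l (hT hl)).2.2) hyT
    rw [mem_biUnion]
    refine ⟨T', ?_, mem_filter.2 ⟨mem_Ioc.2 ⟨hm1, hm2⟩, fun l hl => hTm l (hT' hl)⟩⟩
    rw [hI, mem_filter, mem_powerset]
    exact ⟨hT'.trans hT, h4, h5⟩
  have hone : ∀ T ∈ I, (((Finset.Ioc M (M + Y)).filter fun m : ℤ => q T m).card : ℝ) ≤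
      (D : ℝ) ^ T.card * (Y / ((∏ l ∈ T, l : ℕ) : ℝ) ^ 2 + 1) := by
    intro T hT
    rw [hI, mem_filter, mem_powerset] at hT
    have hR : ((range ((∏ l ∈ T, l) ^ 2)).filter fun c : ℕ => q T (c : ℤ)).card ≤ D ^ T.card := by
      have h3 := hBD T fun l hl => ⟨(hPm l (hT.1 hl)).1, (hPm l (hT.1 hl)).2.1⟩
      exact h3
    have h3 := lg_fib (q T) ((∏ l ∈ T, l) ^ 2) (pow_pos (hpos T hT.1) 2) (hqper T)
      ((Finset.Ioc M (M + Y)).filter fun m : ℤ => q T m)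
      (D ^ T.card) ((Y : ℝ) / (((∏ l ∈ T, l) ^ 2 : ℕ) : ℝ) + 1) (by positivity) (by convert hR)
      (fun m hm => (mem_filter.1 hm).2) (fun c => by
        refine le_trans ?_ (lg_card_class M Y ((∏ l ∈ T, l) ^ 2) (pow_pos (hpos T hT.1) 2) c)
        have h4 : (((Finset.Ioc M (M + Y)).filter fun m : ℤ => q T m).filter fun m : ℤ =>
            (((∏ l ∈ T, l) ^ 2 : ℕ) : ℤ) ∣ m - c) ⊆
            (Finset.Ioc M (M + Y)).filter fun x : ℤ => x ≡ c [ZMOD (((∏ l ∈ T, l) ^ 2 : ℕ) : ℤ)] := by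
          intro m hm
          rw [mem_filter, mem_filter] at hm
          rw [mem_filter]
          exact ⟨hm.1.1, (Int.modEq_iff_dvd.2 hm.2).symm⟩
        exact_mod_cast card_le_card h4)
    refine h3.trans (le_of_eq ?_)
    have h5 : (((∏ l ∈ T, l) ^ 2 : ℕ) : ℝ) = ((∏ l ∈ T, l : ℕ) : ℝ) ^ 2 := by
      push_cast
      rfl
    rw [h5, Nat.cast_pow]
  have h3 : (S.card : ℝ) ≤ ∑ T ∈ I, (D : ℝ) ^ T.card * (Y / ((∏ l ∈ T, l : ℕ) : ℝ) ^ 2 + 1) := by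
    calc (S.card : ℝ) ≤ ((I.biUnion fun T => (Finset.Ioc M (M + Y)).filter fun m : ℤ => q T m).card : ℝ) := by
          exact_mod_cast card_le_card hsub
      _ ≤ ((∑ T ∈ I, ((Finset.Ioc M (M + Y)).filter fun m : ℤ => q T m).card : ℕ) : ℝ) := by
          exact_mod_cast card_biUnion_le
      _ = ∑ T ∈ I, (((Finset.Ioc M (M + Y)).filter fun m : ℤ => q T m).card : ℝ) := by
          rw [Nat.cast_sum]
      _ ≤ _ := sum_le_sum hone
  have h4 : ∑ T ∈ I, (D : ℝ) ^ T.card * (Y / ((∏ l ∈ T, l : ℕ) : ℝ) ^ 2 + 1) =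
      Y * ∑ T ∈ I, (D : ℝ) ^ T.card / ((∏ l ∈ T, l : ℕ) : ℝ) ^ 2 + ∑ T ∈ I, (D : ℝ) ^ T.card := by
    rw [mul_sum, ← sum_add_distrib]
    refine sum_congr rfl fun T _ => ?_
    ring
  have h5 : ∑ T ∈ I, (D : ℝ) ^ T.card / ((∏ l ∈ T, l : ℕ) : ℝ) ^ 2 ≤ C / Real.sqrt y := by
    refine le_trans (sum_le_sum_of_subset_of_nonneg (fun T hT => ?_) (fun T _ _ => by positivity)) hs2
    rw [hI, mem_filter, mem_powerset] at hT
    exact mem_filter.2 ⟨mem_powerset.2 (hT.1.trans hP2), hT.2.1⟩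
  have h6 : ∑ T ∈ I, (D : ℝ) ^ T.card ≤ C * y ^ 3 := by
    refine le_trans (sum_le_sum_of_subset_of_nonneg (fun T hT => ?_) (fun T _ _ => by positivity)) hs3
    rw [hI, mem_filter, mem_powerset] at hT
    exact mem_filter.2 ⟨mem_powerset.2 (hT.1.trans hP2), hT.2.2⟩
  have hY0 : (0 : ℝ) ≤ Y := Nat.cast_nonneg Y
  calc (S.card : ℝ) ≤ _ := h3
    _ = _ := h4
    _ ≤ Y * (C / Real.sqrt y) + C * y ^ 3 := add_le_add (mul_le_mul_of_nonneg_left h5 hY0) h6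
    _ = C * (Y / Real.sqrt y + y ^ 3) := by ring

end Pool.Agent.H37.MT
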