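import Pool.Agent.H37.MT.Cl
import Pool.Agent.H37.MT.Lg

/-!
MT Core: the count (note 5711; adapted from PS/Core).
-/

set_option autoImplicit false

namespace Pool.Agent.H37.MT

open Finset Polynomial Pool.Agent.H37.PPC Pool.Agent.H37.PPD Pool.Agent.H37.PB Pool.Agent.H37.PP Pool.Agent.H37.PS

/-- the condition: `(p/q) ≠ -1` for the primes `p ∥ h1(m)`, `q ∥ h2(m)` -/
def Jc (h1 h2 : ℤ[X]) (B : ℕ) (m : ℤ) : Prop :=
  ∀ p q : ℕ, p.Prime → q.Prime → B < p → B < q → (p : ℤ) ∣ h1.eval m → ¬ (p : ℤ) ^ 2 ∣ h1.eval m →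
    (q : ℤ) ∣ h2.eval m → ¬ (q : ℤ) ^ 2 ∣ h2.eval m → jacobiSym (p : ℤ) q ≠ -1

section

variable {h0 h1 h2 : ℤ[X]} {B D : ℕ} {C : ℝ} {w0 w1 w2 : ℕ → ℝ}

theorem prod_ndvd {P U : Finset ℕ} (hP : ∀ l ∈ P, l.Prime) (hU : U ⊆ P) {l : ℕ} (hl : l ∈ P \ U) :
    ¬ l ∣ (∏ a ∈ U, a) ^ 2 := by
  intro h2
  rw [mem_sdiff] at hl
  have hlp := hP l hl.1
  have h4 := hlp.dvd_of_dvd_pow h2
  obtain ⟨a, ha, h5⟩ := (_root_.Prime.dvd_finsetProd_iff hlp.prime _).1 h4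
  have h6 : l = a := (Nat.prime_dvd_prime_iff_eq hlp (hP a (hU ha))).1 h5
  exact hl.2 (h6 ▸ ha)

/-- the factor of `U` -/
noncomputable def fU (E : ℝ) (U : Finset ℕ) : ℝ := E ^ U.card / ((∏ l ∈ U, l : ℕ) : ℝ) ^ 2

theorem fU_nonneg {E : ℝ} (hE : 0 ≤ E) (U : Finset ℕ) : 0 ≤ fU E U := by
  unfold fU
  positivity

/-- no prime divisor of `h1(m)` outside `U`, or none of `h2(m)` -/
theorem count_noneU (t : Bool) (T : Tr h0 h1 h2 B D C w0 w1 w2) (Dr : ℕ)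
    (hDr : ∀ U : Finset ℕ, (∀ l ∈ U, l.Prime ∧ B < l) → (cls h1 h2 U).card ≤ Dr ^ U.card) :
    ∃ K : ℝ, 0 < K ∧ ∃ s : ℕ, 0 < s ∧ ∀ (Y y : ℕ) (M : ℤ), 2 ≤ y → y ^ (s + 4) ≤ Y → B ≤ y →
    ∀ U : Finset ℕ, U ⊆ pr (B + 1) (y + 1) → ∏ l ∈ U, l ≤ y ^ 2 → ∀ S : Finset ℤ,
    (∀ m ∈ S, M < m ∧ m ≤ M + Y ∧ SqD h1 h2 U m ∧ (t = true → ∀ l ∈ pr (B + 1) (y + 1), ¬ (l : ℤ) ∣ h0.eval m) ∧
      ((∀ l ∈ pr (B + 1) (y + 1) \ U, ¬ (l : ℤ) ∣ h1.eval m) ∨
      (∀ l ∈ pr (B + 1) (y + 1) \ U, ¬ (l : ℤ) ∣ h2.eval m))) →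
    (S.card : ℝ) ≤ K * (fU (Dr * Real.exp (3 * D)) U * Y) * (Real.exp (-g0 t y) * Real.exp (-ll y)) := by
  classical
  obtain ⟨K, hK, s, hs, H⟩ := gen_count t T
  refine ⟨2 * (K * Real.exp (C + ll (B + 1))), by positivity, s, hs, ?_⟩
  intro Y y M hy hyY hBy U hU hUy S hS
  have hUp : ∀ l ∈ U, l.Prime ∧ B < l := by
    intro l hl
    have := mem_pr.1 (hU hl)
    exact ⟨this.2, by omega⟩
  have hdpos : 0 < ∏ l ∈ U, l := prod_pos fun l hl => (hUp l hl).1.pos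
  have hnY : (∏ l ∈ U, l) ^ 2 * y ^ s ≤ Y := by
    calc (∏ l ∈ U, l) ^ 2 * y ^ s ≤ (y ^ 2) ^ 2 * y ^ s := Nat.mul_le_mul_right _ (Nat.pow_le_pow_left hUy 2)
      _ = y ^ (s + 4) := by ring
      _ ≤ Y := hyY
  have hm : ∀ (h : ℤ[X]) (w : ℕ → ℝ), Wt h B D C w →
      Real.exp (-g0 t y) * Real.exp (-(∑ l ∈ pr (B + 1) (y + 1), w l / l)) ≤
        Real.exp (C + ll (B + 1)) * (Real.exp (-g0 t y) * Real.exp (-ll y)) := by
    intro h w hw
    have h3 := sum_all hw T.hB2 hy hBy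
    rw [← Real.exp_add, ← Real.exp_add, ← Real.exp_add]
    apply Real.exp_le_exp.2
    linarith
  obtain ⟨N1, hN1⟩ : ∃ N : ℤ → Prop, ∀ m, N m ↔ ∀ l ∈ pr (B + 1) (y + 1) \ U, ¬ (l : ℤ) ∣ h1.eval m :=
    ⟨_, fun m => Iff.rfl⟩
  obtain ⟨N2, hN2⟩ : ∃ N : ℤ → Prop, ∀ m, N m ↔ ∀ l ∈ pr (B + 1) (y + 1) \ U, ¬ (l : ℤ) ∣ h2.eval m :=
    ⟨_, fun m => Iff.rfl⟩
  have hU1 : ∀ l ∈ U, 1 ≤ l := fun l hl => (hUp l hl).1.one_lt.le
  have hPU : ∀ l ∈ pr (B + 1) (y + 1) \ U, ¬ l ∣ (∏ l ∈ U, l) ^ 2 := fun l hl =>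
    prod_ndvd (fun l hl => (mem_pr.1 hl).2) hU hl
  have hS1 := H Y y ((∏ l ∈ U, l) ^ 2) M hy hBy (pow_pos hdpos 2) hnY U (pr (B + 1) (y + 1)) ∅ hU1 (Subset.refl _)
    (empty_subset _) hPU (cls h1 h2 U) (S.filter N1) (by
      intro m hm
      rw [mem_filter] at hm
      exact ⟨(hS m hm.1).1, (hS m hm.1).2.1, cls_all U (fun l hl => (hUp l hl).1) m (hS m hm.1).2.2.1,
        (hS m hm.1).2.2.2.1, (hN1 m).1 hm.2, by simp⟩)
  have hS2 := H Y y ((∏ l ∈ U, l) ^ 2) M hy hBy (pow_pos hdpos 2) hnY U ∅ (pr (B + 1) (y + 1)) hU1 (empty_subset _)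
    (Subset.refl _) hPU (cls h1 h2 U) (S.filter N2) (by
      intro m hm
      rw [mem_filter] at hm
      exact ⟨(hS m hm.1).1, (hS m hm.1).2.1, cls_all U (fun l hl => (hUp l hl).1) m (hS m hm.1).2.2.1,
        (hS m hm.1).2.2.2.1, by simp, (hN2 m).1 hm.2⟩)
  rw [sum_empty, sub_zero] at hS1
  rw [sum_empty, neg_zero, zero_sub] at hS2
  have hcov : S ⊆ (S.filter N1) ∪ (S.filter N2) := by
    intro m hm
    rw [mem_union, mem_filter, mem_filter]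
    rcases (hS m hm).2.2.2.2 with h | h
    · exact Or.inl ⟨hm, (hN1 m).2 h⟩
    · exact Or.inr ⟨hm, (hN2 m).2 h⟩
  have h3 : (S.card : ℝ) ≤ ((S.filter N1).card : ℝ) + ((S.filter N2).card : ℝ) := by
    have := (card_le_card hcov).trans (card_union_le _ _)
    exact_mod_cast this
  have hc : ((cls h1 h2 U).card : ℝ) ≤ (Dr : ℝ) ^ U.card := by exact_mod_cast hDr U hUp
  have hfac : K * ((cls h1 h2 U).card * Real.exp (3 * D * U.card)) * (Y / (((∏ l ∈ U, l) ^ 2 : ℕ) : ℝ)) ≤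
      K * (fU (Dr * Real.exp (3 * D)) U * Y) := by
    have e1 : fU (Dr * Real.exp (3 * D)) U * Y =
        ((Dr : ℝ) ^ U.card * Real.exp (3 * D * U.card)) * (Y / (((∏ l ∈ U, l) ^ 2 : ℕ) : ℝ)) := by
      unfold fU
      rw [mul_pow, ← Real.exp_nat_mul]
      push_cast
      rw [mul_comm (3 * (D : ℝ)) (U.card : ℝ)]
      ring
    rw [e1, mul_assoc]
    apply mul_le_mul_of_nonneg_left _ hK.le
    apply mul_le_mul_of_nonneg_right _ (by positivity)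
    exact mul_le_mul_of_nonneg_right hc (Real.exp_pos _).le
  obtain ⟨F, hF⟩ : ∃ F : ℝ, F = K * (fU (Dr * Real.exp (3 * D)) U * Y) := ⟨_, rfl⟩
  have hF0 : 0 ≤ F := by
    rw [hF]
    have := fU_nonneg (E := Dr * Real.exp (3 * D)) (by positivity) U
    positivity
  rw [← hF] at hfac
  have e1 := mul_le_mul_of_nonneg_left (hm h1 w1 T.W1) hF0
  have e2 := mul_le_mul_of_nonneg_left (hm h2 w2 T.W2) hF0
  have f1 := hS1.trans (mul_le_mul_of_nonneg_right hfac (by positivity))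
  have f2 := hS2.trans (mul_le_mul_of_nonneg_right hfac (by positivity))
  calc (S.card : ℝ) ≤ F * (Real.exp (C + ll (B + 1)) * (Real.exp (-g0 t y) * Real.exp (-ll y))) +
        F * (Real.exp (C + ll (B + 1)) * (Real.exp (-g0 t y) * Real.exp (-ll y))) := by linarith
    _ = _ := by rw [hF]; ring

theorem count_pairU (t : Bool) (T : Tr h0 h1 h2 B D C w0 w1 w2) (Dr : ℕ)
    (hDr : ∀ U : Finset ℕ, (∀ l ∈ U, l.Prime ∧ B < l) → (cls h1 h2 U).card ≤ Dr ^ U.card) :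
    ∃ K : ℝ, 0 < K ∧ ∃ s : ℕ, 0 < s ∧ ∀ (Y y : ℕ) (M : ℤ), 2 ≤ y → B ≤ y → y ^ (s + 6) ≤ Y →
    ∀ U : Finset ℕ, U ⊆ pr (B + 1) (y + 1) → ∏ l ∈ U, l ≤ y ^ 2 →
    ∀ p q : ℕ, p ∈ pr (B + 1) (y + 1) \ U → q ∈ pr (B + 1) (y + 1) \ U → ∀ S : Finset ℤ,
    (∀ m ∈ S, M < m ∧ m ≤ M + Y ∧ SqD h1 h2 U m ∧ (p : ℤ) ∣ h1.eval m ∧ (q : ℤ) ∣ h2.eval m ∧
      (t = true → ∀ l ∈ pr (B + 1) (y + 1), ¬ (l : ℤ) ∣ h0.eval m) ∧
      (∀ l ∈ pr (p + 1) (y + 1) \ U, ¬ (l : ℤ) ∣ h1.eval m) ∧ (∀ l ∈ pr (q + 1) (y + 1) \ U, ¬ (l : ℤ) ∣ h2.eval m) ∧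
      (∀ l ∈ pr (B + 1) (y + 1) \ U, ¬ (l : ℤ) ^ 2 ∣ h1.eval m ∧ ¬ (l : ℤ) ^ 2 ∣ h2.eval m) ∧ Jc h1 h2 B m) →
    (S.card : ℝ) ≤ K * (fU (Dr * Real.exp (3 * D)) U * Y) * (Real.exp (-g0 t y) * Real.exp (-(2 * ll y)) *
      GG (W ch1 w1) (W ch2 w2) (LB ch1 w1) (LB ch2 w2) p q) := by
  classical
  obtain ⟨K, hK, s, hs, H⟩ := gen_count t T
  have hB2 := T.hB2
  have hC0 : 0 ≤ C := (abs_nonneg _).trans (T.W1.me 2 2 le_rfl le_rfl)
  obtain ⟨c1, hc1, H1⟩ := half_all h1 B D C w1 T.W1 ch1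
  obtain ⟨c2, hc2, H2⟩ := half_all h2 B D C w2 T.W2 ch2
  refine ⟨(K * ((D * D + 1) * Real.exp (6 * D))) * (Real.exp (2 * C + 2) * (c1 * c2 + 1)), by positivity, s, hs, ?_⟩
  intro Y y M hy hBy hyY U hU hUy p q hp hq S hS
  have hpU := (mem_sdiff.1 hp).2
  have hqU := (mem_sdiff.1 hq).2
  have hp' := mem_pr.1 (mem_sdiff.1 hp).1
  have hq' := mem_pr.1 (mem_sdiff.1 hq).1
  have hUp : ∀ l ∈ U, l.Prime ∧ B < l := by
    intro l hl
    have := mem_pr.1 (hU hl)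
    exact ⟨this.2, by omega⟩
  have hp0 : (0 : ℝ) < p := by exact_mod_cast hp'.2.pos
  have hq0 : (0 : ℝ) < q := by exact_mod_cast hq'.2.pos
  have hlp : 0 < Real.log p := Real.log_pos (by exact_mod_cast hp'.2.one_lt)
  have hlq : 0 < Real.log q := Real.log_pos (by exact_mod_cast hq'.2.one_lt)
  have hLy := ll_ge hy
  have hW1 := W_ge ch1 w1 q
  have hW2 := W_ge ch2 w2 p
  have hit : ∀ (E : ℕ → Prop) (q : ℕ), (0 : ℝ) ≤ (if E q then 1 else 0) := fun E q => by split_ifs <;> norm_num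
  obtain ⟨X, hX⟩ : ∃ X : ℝ, X = W ch2 w2 p * W ch1 w1 q * ((1 / Real.sqrt (Real.log p) + 1 / (Real.log q) ^ 3) *
    (1 / Real.sqrt (Real.log q) + 1 / (Real.log p) ^ 3)) := ⟨_, rfl⟩
  have hX0 : 0 ≤ X := by rw [hX]; positivity
  have hgg : GG (W ch1 w1) (W ch2 w2) (LB ch1 w1) (LB ch2 w2) p q * (p * q) =
      (X + (if LB ch2 w2 p then 1 else 0) + (if LB ch1 w1 q then 1 else 0)) * (Real.log p * Real.log q) := by
    unfold GG
    rw [← hX]
    field_simp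
  have hG0 : 0 ≤ GG (W ch1 w1) (W ch2 w2) (LB ch1 w1) (LB ch2 w2) p q := by
    unfold GG
    rw [← hX]
    have i1 := hit (LB ch2 w2) p
    have i2 := hit (LB ch1 w1) q
    positivity
  obtain ⟨F, hF⟩ : ∃ F : ℝ, F = fU (Dr * Real.exp (3 * D)) U * Y := ⟨_, rfl⟩
  have hF0 : 0 ≤ F := by
    rw [hF]
    have := fU_nonneg (E := Dr * Real.exp (3 * D)) (by positivity) U
    positivity
  rw [← hF]
  by_cases hpq : p = q
  · have hSe : S = ∅ := by
      rw [eq_empty_iff_forall_notMem]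
      intro m hm
      obtain ⟨a1, a2, -, a3, a4, -⟩ := hS m hm
      rw [← hpq] at a4
      exact T.c12 p hp'.2 (by omega) m a3 a4
    rw [hSe, card_empty, Nat.cast_zero]
    positivity
  have hdpos : 0 < ∏ l ∈ U, l := prod_pos fun l hl => (hUp l hl).1.pos
  obtain ⟨R, hRc, hRm⟩ := cls_pq (h1 := h1) (h2 := h2) U (fun l hl => (hUp l hl).1) p q (Dr ^ U.card) D D hp'.2 hq'.2 hpq
    hpU hqU (hDr U hUp) (T.W1.up p hp'.2 (by omega)) (T.W2.up q hq'.2 (by omega))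
  obtain ⟨n, hn⟩ : ∃ n : ℕ, n = (∏ l ∈ U, l) ^ 2 * (p * q) := ⟨_, rfl⟩
  rw [← hn] at hRm
  have hnpos : 0 < n := by
    rw [hn]
    exact Nat.mul_pos (pow_pos hdpos 2) (Nat.mul_pos hp'.2.pos hq'.2.pos)
  have hnY : n * y ^ s ≤ Y := by
    have h3 : p * q ≤ y * y := Nat.mul_le_mul (by omega) (by omega)
    calc n * y ^ s ≤ ((y ^ 2) ^ 2 * (y * y)) * y ^ s := by
          rw [hn]
          exact Nat.mul_le_mul_right _ (Nat.mul_le_mul (Nat.pow_le_pow_left hUy 2) h3)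
      _ = y ^ (s + 6) := by ring
      _ ≤ Y := hyY
  set V : Finset ℕ := insert p (insert q U) with hV
  have hVc : V.card ≤ U.card + 2 := (card_insert_le _ _).trans (Nat.succ_le_succ (card_insert_le _ _))
  have hV1 : ∀ l ∈ V, 1 ≤ l := by
    intro l hl
    rw [hV, mem_insert, mem_insert] at hl
    rcases hl with rfl | rfl | h
    · exact hp'.2.one_lt.le
    · exact hq'.2.one_lt.le
    · exact (hUp l h).1.one_lt.le
  have hVn : ∀ l ∈ pr (B + 1) (y + 1) \ V, ¬ l ∣ n := by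
    intro l hl hd
    rw [mem_sdiff, hV, mem_insert, mem_insert] at hl
    push Not at hl
    obtain ⟨hl1, hl2, hl3, hl4⟩ := hl
    have hlp := (mem_pr.1 hl1).2
    rw [hn] at hd
    rcases (Nat.Prime.dvd_mul hlp).1 hd with h | h
    · exact prod_ndvd (fun l hl => (mem_pr.1 hl).2) hU (mem_sdiff.2 ⟨hl1, hl4⟩) h
    rcases (Nat.Prime.dvd_mul hlp).1 h with h5 | h5
    · exact hl2 ((Nat.prime_dvd_prime_iff_eq hlp hp'.2).1 h5)
    · exact hl3 ((Nat.prime_dvd_prime_iff_eq hlp hq'.2).1 h5)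
  have hfac : K * (R.card * Real.exp (3 * D * V.card)) * (Y / n) ≤
      K * ((D * D + 1) * Real.exp (6 * D)) * (F / (p * q)) := by
    have e1 : F / (p * q) = ((Dr : ℝ) ^ U.card * Real.exp (3 * D * U.card)) * (Y / n) := by
      rw [hF, hn]
      unfold fU
      rw [mul_pow, ← Real.exp_nat_mul]
      push_cast
      rw [mul_comm (3 * (D : ℝ)) (U.card : ℝ)]
      have : ((∏ l ∈ U, (l : ℝ)) : ℝ) ≠ 0 := by
        have h5 : ((∏ l ∈ U, l : ℕ) : ℝ) ≠ 0 := by exact_mod_cast hdpos.ne'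
        push_cast at h5
        exact h5
      field_simp
    have e2 : (R.card : ℝ) ≤ (Dr : ℝ) ^ U.card * (D * D + 1) := by
      have : (R.card : ℝ) ≤ (Dr : ℝ) ^ U.card * (D * D) := by exact_mod_cast hRc
      have h5 : (0 : ℝ) ≤ (Dr : ℝ) ^ U.card := by positivity
      linarith
    have e3 : Real.exp (3 * D * V.card) ≤ Real.exp (3 * D * U.card) * Real.exp (6 * D) := by
      rw [← Real.exp_add]
      apply Real.exp_le_exp.2
      have h5 : (V.card : ℝ) ≤ U.card + 2 := by exact_mod_cast hVc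
      have h6 : (0 : ℝ) ≤ D := Nat.cast_nonneg _
      nlinarith
    rw [e1]
    calc K * (R.card * Real.exp (3 * D * V.card)) * (Y / n) ≤
        K * (((Dr : ℝ) ^ U.card * (D * D + 1)) * (Real.exp (3 * D * U.card) * Real.exp (6 * D))) * (Y / n) := by
          apply mul_le_mul_of_nonneg_right _ (by positivity)
          apply mul_le_mul_of_nonneg_left _ hK.le
          exact mul_le_mul e2 e3 (Real.exp_pos _).le (by positivity)
      _ = _ := by ring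
  obtain ⟨K', hK'⟩ : ∃ K' : ℝ, K' = K * ((D * D + 1) * Real.exp (6 * D)) := ⟨_, rfl⟩
  have hK'0 : 0 < K' := by rw [hK']; positivity
  rw [← hK'] at hfac ⊢
  -- the basic sums
  have hbase : ∀ (w : ℕ → ℝ) (t : ℕ), (∀ a b : ℕ, 2 ≤ a → a ≤ b → |∑ l ∈ pr a b, w l / l - (ll b - ll a)| ≤ C) →
      2 ≤ t → t ≤ y → ll y - ll t - C - 1 ≤ ∑ l ∈ pr (t + 1) (y + 1), w l / l := by
    intro w t hw ht hty
    have h3 := (abs_le.1 (hw (t + 1) (y + 1) (by omega) (by omega))).1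
    have h4 := ll_mono hy (by omega : y ≤ y + 1)
    have h5 := ll_succ ht
    linarith
  have hb1 := hbase w1 p T.W1.me (by omega) (by omega)
  have hb2 := hbase w2 q T.W2.me (by omega) (by omega)
  have hsubp : pr (p + 1) (y + 1) ⊆ pr (B + 1) (y + 1) := by
    intro l hl
    rw [mem_pr] at hl ⊢
    exact ⟨⟨by omega, hl.1.2⟩, hl.2⟩
  have hsubq : pr (q + 1) (y + 1) ⊆ pr (B + 1) (y + 1) := by
    intro l hl
    rw [mem_pr] at hl ⊢
    exact ⟨⟨by omega, hl.1.2⟩, hl.2⟩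
  have hb3 : Real.exp (-(∑ l ∈ pr (p + 1) (y + 1), w1 l / l) - ∑ l ∈ pr (q + 1) (y + 1), w2 l / l) ≤
      Real.exp (2 * C + 2) * (Real.exp (-(2 * ll y)) * (Real.log p * Real.log q)) := by
    rw [← exp_ll (a := p) (by omega), ← exp_ll (a := q) (by omega), ← Real.exp_add, ← Real.exp_add,
      ← Real.exp_add]
    apply Real.exp_le_exp.2
    linarith
  have hsV : ∀ (Z : Finset ℕ) (l : ℕ), l ∈ Z \ V → l ∈ Z \ U := by
    intro Z l hl
    rw [mem_sdiff, hV, mem_insert, mem_insert] at hl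
    push Not at hl
    exact mem_sdiff.2 ⟨hl.1, hl.2.2.2⟩
  -- it suffices to bound the exponential
  have hfin : ∀ E : ℝ, (S.card : ℝ) ≤ K' * (F / (p * q)) * (Real.exp (-g0 t y) * Real.exp E) →
      Real.exp E ≤ Real.exp (2 * C + 2) * (c1 * c2 + 1) * (Real.exp (-(2 * ll y)) *
        (GG (W ch1 w1) (W ch2 w2) (LB ch1 w1) (LB ch2 w2) p q * (p * q))) →
      (S.card : ℝ) ≤ K' * (Real.exp (2 * C + 2) * (c1 * c2 + 1)) * F *
        (Real.exp (-g0 t y) * Real.exp (-(2 * ll y)) * GG (W ch1 w1) (W ch2 w2) (LB ch1 w1) (LB ch2 w2) p q) := by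
    intro E h3 h4
    have hYpq : (0 : ℝ) ≤ K' * (F / (p * q)) := by positivity
    refine h3.trans ((mul_le_mul_of_nonneg_left (mul_le_mul_of_nonneg_left h4 (Real.exp_pos _).le)
      hYpq).trans (le_of_eq ?_))
    field_simp
  have hgen : ∀ Z1 Z2 : Finset ℕ, Z1 ⊆ pr (B + 1) (y + 1) → Z2 ⊆ pr (B + 1) (y + 1) →
      (∀ m ∈ S, (∀ l ∈ Z1 \ U, ¬ (l : ℤ) ∣ h1.eval m) ∧ (∀ l ∈ Z2 \ U, ¬ (l : ℤ) ∣ h2.eval m)) →
      (S.card : ℝ) ≤ K' * (F / (p * q)) * (Real.exp (-g0 t y) *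
        Real.exp (-(∑ l ∈ Z1, w1 l / l) - ∑ l ∈ Z2, w2 l / l)) := by
    intro Z1 Z2 hZ1 hZ2 hZ
    refine (H Y y n M hy hBy hnpos hnY V Z1 Z2 hV1 hZ1 hZ2 hVn R S ?_).trans
      (mul_le_mul_of_nonneg_right hfac (by positivity))
    intro m hm
    obtain ⟨a1, a2, a3, a4, a5, a6, -⟩ := hS m hm
    exact ⟨a1, a2, hRm m a3 a4 a5, a6, fun l hl => (hZ m hm).1 l (hsV Z1 l hl), fun l hl => (hZ m hm).2 l (hsV Z2 l hl)⟩
  by_cases hex : LB ch2 w2 p ∨ LB ch1 w1 q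
  · -- exceptional pair
    have h3 := hgen (pr (p + 1) (y + 1)) (pr (q + 1) (y + 1)) hsubp hsubq (by
      intro m hm
      obtain ⟨-, -, -, -, -, -, a5, a6, -⟩ := hS m hm
      exact ⟨a5, a6⟩)
    refine hfin _ h3 ?_
    rw [hgg]
    refine hb3.trans ?_
    have h5 : Real.log p * Real.log q ≤
        (X + (if LB ch2 w2 p then 1 else 0) + (if LB ch1 w1 q then 1 else 0)) * (Real.log p * Real.log q) := by
      apply le_mul_of_one_le_left (by positivity)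
      have i1 := hit (LB ch2 w2) p
      have i2 := hit (LB ch1 w1) q
      rcases hex with h | h
      · rw [if_pos h]
        linarith
      · rw [if_pos h]
        linarith
    have h6 : (1 : ℝ) ≤ c1 * c2 + 1 := by
      have : 0 < c1 * c2 := by positivity
      linarith
    have h7 : 0 ≤ (X + (if LB ch2 w2 p then 1 else 0) + (if LB ch1 w1 q then 1 else 0)) *
        (Real.log p * Real.log q) := le_trans (by positivity) h5
    calc Real.exp (2 * C + 2) * (Real.exp (-(2 * ll y)) * (Real.log p * Real.log q)) ≤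
          Real.exp (2 * C + 2) * (Real.exp (-(2 * ll y)) *
          ((X + (if LB ch2 w2 p then 1 else 0) + (if LB ch1 w1 q then 1 else 0)) * (Real.log p * Real.log q))) :=
          mul_le_mul_of_nonneg_left (mul_le_mul_of_nonneg_left h5 (Real.exp_pos _).le) (Real.exp_pos _).le
      _ ≤ _ := by
          apply mul_le_mul_of_nonneg_right _ (by positivity)
          exact le_mul_of_one_le_right (Real.exp_pos _).le h6
  · push Not at hex
    obtain ⟨hex1, hex2⟩ := hex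
    have g1 := H1 q p (by omega) hex2 (fun l hl hl2 hlq => ch1_pm' q l hq'.2 (by omega) hl hlq)
      (fun l => ch1_abs l q) (by omega)
    have g2 := H2 p q (by omega) hex1 (fun l hl hl2 hlp => ch2_pm' p l hp'.2 hl hlp)
      (fun l => ch2_abs l p) (by omega)
    set F1 : Finset ℕ := NF ch1 B q p with hF1
    set F2 : Finset ℕ := NF ch2 B p q with hF2
    have hF1m : ∀ l ∈ F1, l < p ∧ l.Prime ∧ B < l ∧ 2 < l ∧ ch1 l q = -1 := by
      intro l hl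
      rw [hF1, NF, mem_filter, mem_pr] at hl
      exact ⟨hl.1.1.2, hl.1.2, hl.2.1, hl.2.2.1, hl.2.2.2⟩
    have hF2m : ∀ l ∈ F2, l < q ∧ l.Prime ∧ B < l ∧ 2 < l ∧ ch2 l p = -1 := by
      intro l hl
      rw [hF2, NF, mem_filter, mem_pr] at hl
      exact ⟨hl.1.1.2, hl.1.2, hl.2.1, hl.2.2.1, hl.2.2.2⟩
    have d1 : Disjoint (pr (p + 1) (y + 1)) F1 := by
      rw [disjoint_left]
      intro l hl hl'
      have a := mem_pr.1 hl
      have b := hF1m l hl'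
      omega
    have d2 : Disjoint (pr (q + 1) (y + 1)) F2 := by
      rw [disjoint_left]
      intro l hl hl'
      have a := mem_pr.1 hl
      have b := hF2m l hl'
      omega
    have h3 := hgen (pr (p + 1) (y + 1) ∪ F1) (pr (q + 1) (y + 1) ∪ F2) (by
        apply union_subset hsubp
        intro l hl
        have b := hF1m l hl
        rw [mem_pr]
        exact ⟨⟨by omega, by omega⟩, b.2.1⟩) (by
        apply union_subset hsubq
        intro l hl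
        have b := hF2m l hl
        rw [mem_pr]
        exact ⟨⟨by omega, by omega⟩, b.2.1⟩) (by
      intro m hm
      obtain ⟨a1, a2, as, a3, a4, a0, a5, a6, ae, a7⟩ := hS m hm
      refine ⟨?_, ?_⟩
      · intro l hl
        rw [mem_sdiff] at hl
        rcases mem_union.1 hl.1 with h | h
        · exact a5 l (mem_sdiff.2 ⟨h, hl.2⟩)
        · intro hd
          have b := hF1m l h
          have hlP : l ∈ pr (B + 1) (y + 1) \ U := mem_sdiff.2 ⟨mem_pr.2 ⟨⟨by omega, by omega⟩, b.2.1⟩, hl.2⟩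
          have hj := a7 l q b.2.1 hq'.2 b.2.2.1 (by omega) hd (ae l hlP).1 a4 (ae q hq).2
          have ho : Odd q := hq'.2.odd_of_ne_two (by omega)
          have e := b.2.2.2.2
          unfold ch1 psi at e
          rw [if_pos ho] at e
          exact hj (by exact_mod_cast e)
      · intro l hl
        rw [mem_sdiff] at hl
        rcases mem_union.1 hl.1 with h | h
        · exact a6 l (mem_sdiff.2 ⟨h, hl.2⟩)
        · intro hd
          have b := hF2m l h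
          have hlP : l ∈ pr (B + 1) (y + 1) \ U := mem_sdiff.2 ⟨mem_pr.2 ⟨⟨by omega, by omega⟩, b.2.1⟩, hl.2⟩
          have hj := a7 p l hp'.2 b.2.1 (by omega) b.2.2.1 a3 (ae p hp).1 hd (ae l hlP).2
          have e := b.2.2.2.2
          unfold ch2 at e
          exact hj (by exact_mod_cast e))
    rw [sum_union d1, sum_union d2] at h3
    refine hfin _ h3 ?_
    rw [hgg, if_neg hex1, if_neg hex2, add_zero, add_zero]
    have e3 : Real.exp (-(∑ l ∈ pr (p + 1) (y + 1), w1 l / l + ∑ l ∈ F1, w1 l / l) -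
        (∑ l ∈ pr (q + 1) (y + 1), w2 l / l + ∑ l ∈ F2, w2 l / l)) =
        Real.exp (-(∑ l ∈ pr (p + 1) (y + 1), w1 l / l) - ∑ l ∈ pr (q + 1) (y + 1), w2 l / l) *
        (Real.exp (-∑ l ∈ F1, w1 l / l) * Real.exp (-∑ l ∈ F2, w2 l / l)) := by
      rw [← Real.exp_add, ← Real.exp_add]
      congr 1
      ring
    rw [e3]
    have h8 : Real.exp (-∑ l ∈ F1, w1 l / l) * Real.exp (-∑ l ∈ F2, w2 l / l) ≤ c1 * c2 * X := by
      refine (mul_le_mul g1 g2 (Real.exp_pos _).le (by positivity)).trans (le_of_eq ?_)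
      rw [hX]
      ring
    have h9 := mul_le_mul hb3 h8 (by positivity) (by positivity)
    refine h9.trans ?_
    have h10 : c1 * c2 * X ≤ (c1 * c2 + 1) * X := mul_le_mul_of_nonneg_right (by linarith) hX0
    calc Real.exp (2 * C + 2) * (Real.exp (-(2 * ll y)) * (Real.log p * Real.log q)) * (c1 * c2 * X) ≤
        Real.exp (2 * C + 2) * (Real.exp (-(2 * ll y)) * (Real.log p * Real.log q)) * ((c1 * c2 + 1) * X) :=
          mul_le_mul_of_nonneg_left h10 (by positivity)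
      _ = _ := by ring

end

end Pool.Agent.H37.MT
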