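import Pool.Agent.H3.PO.Even
import Pool.Agent.H37.PB.Me

/-!
MT Ev: quantitative form of `Pool.Agent.H3.PO.even_order_div` (H3/PO/Even.lean): the same inequality at one prime,
`∑_{i ≤ d} np K_i q ≤ d * np R q + M * 1_{G q}` for `q > N`, summed with `1 / q` over `pr a b`, with `np_mert` (PB/Me) for the fields `K_i`, `R`
in place of the Dirichlet series.
-/

set_option autoImplicit false

namespace Pool.Agent.H37.MT

open Finset Pool.Agent.H24.FD Pool.Agent.H37.PPC Pool.Agent.H37.PPD Pool.Agent.H37.PB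

open Classical in
theorem even_mert (K : Type) [Field K] [NumberField K] (p : ℕ) (hp : p.Prime) (B : ℕ) :
    ∃ δ C : ℝ, 0 < δ ∧ δ ≤ 1 ∧ ∀ a b : ℕ, 2 ≤ a → a ≤ b → δ * (ll b - ll a) - C ≤
      ∑ q ∈ (pr a b).filter (fun q => B < q ∧ 0 < np K q ∧ ¬ Odd (orderOf (p : ZMod q))), (1 : ℝ) / q := by
  obtain ⟨d, hd⟩ : ∃ d : ℕ, d = Module.finrank ℚ K := ⟨_, rfl⟩
  obtain ⟨R, hR1, hR2, N1, hN1⟩ := Pool.Agent.H3.PO.root_le p (2 ^ d) hp (by positivity)
  have hc : ∀ i : ℕ, ∃ N : ℕ, ∀ q : ℕ, q.Prime → N < q →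
      np (CyclotomicField (2 ^ i) K) q ≤ np K q * Nat.card {y : ZMod q // orderOf y = 2 ^ i} :=
    fun i => Pool.Agent.H3.PO.cyc_le K (2 ^ i)
  choose N2 hN2 using hc
  obtain ⟨N, hN⟩ : ∃ N : ℕ, N = max B (max N1 ((range (d + 1)).sup N2)) := ⟨_, rfl⟩
  obtain ⟨G, hG⟩ : ∃ G : ℕ → Prop, G = fun q => B < q ∧ 0 < np K q ∧
    ¬ Odd (orderOf (p : ZMod q)) := ⟨_, rfl⟩
  obtain ⟨D, hD⟩ : ∃ D : ℕ → ℕ, D = fun i => Module.finrank ℚ (CyclotomicField (2 ^ i) K) :=
    ⟨_, rfl⟩
  obtain ⟨M, hM⟩ : ∃ M : ℝ, M = ∑ i ∈ range (d + 1), (D i : ℝ) := ⟨_, rfl⟩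
  have hD1 : ∀ i, 1 ≤ D i := by
    intro i
    rw [hD]
    exact Module.finrank_pos
  have hM1 : 1 ≤ M := by
    have h1 : (D 0 : ℝ) ≤ M := by
      rw [hM]
      exact single_le_sum (f := fun i => (D i : ℝ)) (fun i _ => Nat.cast_nonneg _)
        (mem_range.2 (by omega : 0 < d + 1))
    have h2 : (1 : ℝ) ≤ D 0 := by exact_mod_cast hD1 0
    linarith
  have hM0 : 0 < M := by linarith
  have hNB : B ≤ N := by
    rw [hN]
    exact le_max_left _ _
  have hNN1 : N1 ≤ N := by
    rw [hN]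
    exact (le_max_left _ _).trans (le_max_right _ _)
  have hNN2 : (range (d + 1)).sup N2 ≤ N := by
    rw [hN]
    exact (le_max_right _ _).trans (le_max_right _ _)
  -- the main inequality at one prime
  have hpt : ∀ q : ℕ, q.Prime → N < q → ¬ G q →
      ∑ i ∈ range (d + 1), np (CyclotomicField (2 ^ i) K) q ≤ d * np R q := by
    intro q hq hNq hGq
    have h1 : ∑ i ∈ range (d + 1), np (CyclotomicField (2 ^ i) K) q ≤
        np K q * Nat.card {y : ZMod q // y ^ 2 ^ d = 1} := by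
      refine le_trans (sum_le_sum fun i hi => hN2 i q hq ?_) ?_
      · have h2 : N2 i ≤ (range (d + 1)).sup N2 := le_sup (f := N2) hi
        omega
      · rw [← mul_sum]
        exact Nat.mul_le_mul_left _ (Pool.Agent.H3.PO.sum_orders q d hq)
    rcases Nat.eq_zero_or_pos (np K q) with h0 | h0
    · rw [h0, zero_mul] at h1
      omega
    · have hodd : Odd (orderOf (p : ZMod q)) := by
        by_contra h
        apply hGq
        rw [hG]
        exact ⟨by omega, h0, h⟩
      have h2 := Pool.Agent.H3.PO.card_one_le hq ⟨d, rfl⟩ hodd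
      have h3 := hN1 q hq (by omega)
      have h4 : np K q ≤ d := by
        rw [hd]
        exact np_le K q hq
      exact h1.trans (Nat.mul_le_mul h4 (h2.trans h3))
  have htriv : ∀ q : ℕ, q.Prime →
      ∑ i ∈ range (d + 1), (np (CyclotomicField (2 ^ i) K) q : ℝ) ≤ M := by
    intro q hq
    rw [hM]
    refine sum_le_sum fun i _ => ?_
    have h1 : np (CyclotomicField (2 ^ i) K) q ≤ D i := by
      rw [hD]
      exact np_le _ _ hq
    exact_mod_cast h1
  -- the same as real numbers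
  have hle : ∀ q : ℕ, q.Prime → ∑ i ∈ range (d + 1), (np (CyclotomicField (2 ^ i) K) q : ℝ) / q ≤
      d * ((np R q : ℝ) / q) + (M * (if G q then (1 : ℝ) / q else 0) +
        M * (if q ≤ N then (1 : ℝ) / q else 0)) := by
    intro q hq
    have hx : (0 : ℝ) ≤ 1 / q := by positivity
    have e : ∑ i ∈ range (d + 1), (np (CyclotomicField (2 ^ i) K) q : ℝ) / q =
        (∑ i ∈ range (d + 1), (np (CyclotomicField (2 ^ i) K) q : ℝ)) * (1 / q) := by
      rw [sum_mul]
      exact sum_congr rfl fun i _ => by ring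
    have e2 : (d : ℝ) * ((np R q : ℝ) / q) = (d * np R q) * (1 / q) := by ring
    have ht := mul_le_mul_of_nonneg_right (htriv q hq) hx
    have hr0 : 0 ≤ ((d : ℝ) * np R q) * (1 / q) := by positivity
    have hMx : 0 ≤ M * (1 / (q : ℝ)) := mul_nonneg hM0.le hx
    rw [e, e2]
    by_cases hqN : q ≤ N
    · by_cases hGq : G q
      · rw [if_pos hqN, if_pos hGq]
        linarith
      · rw [if_pos hqN, if_neg hGq]
        linarith
    · by_cases hGq : G q
      · rw [if_neg hqN, if_pos hGq]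
        linarith
      · rw [if_neg hqN, if_neg hGq]
        have h1 := hpt q hq (by omega) hGq
        have h2 : (∑ i ∈ range (d + 1), (np (CyclotomicField (2 ^ i) K) q : ℝ)) ≤ d * np R q := by
          exact_mod_cast h1
        have h3 := mul_le_mul_of_nonneg_right h2 hx
        linarith
  obtain ⟨C1, hC1⟩ := np_mert R
  have hc2 : ∀ i : ℕ, ∃ C : ℝ, ∀ a b : ℕ, 2 ≤ a → a ≤ b →
      (ll b - ll a) - C ≤ ∑ q ∈ pr a b, (np (CyclotomicField (2 ^ i) K) q : ℝ) / q := by
    intro i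
    obtain ⟨C, hC⟩ := np_mert (CyclotomicField (2 ^ i) K)
    refine ⟨C, fun a b ha hb => ?_⟩
    have := (abs_le.1 (hC a b ha hb)).1
    linarith
  choose C2 hC2 using hc2
  refine ⟨1 / M, ((∑ i ∈ range (d + 1), C2 i) + d * C1 + M * (N + 1)) / M, by positivity, ?_, ?_⟩
  · rw [div_le_one hM0]
    exact hM1
  intro a b ha hb
  have h5 := (abs_le.1 (hC1 a b ha hb)).2
  -- small primes
  have h6 : ∑ q ∈ pr a b, (if q ≤ N then (1 : ℝ) / q else 0) ≤ N + 1 := by
    rw [← sum_filter]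
    calc ∑ q ∈ (pr a b).filter (fun q => q ≤ N), (1 : ℝ) / q
        ≤ ∑ q ∈ (pr a b).filter (fun q => q ≤ N), (1 : ℝ) := by
          refine sum_le_sum fun q hq => ?_
          rw [mem_filter, mem_pr] at hq
          have h1 : (1 : ℝ) ≤ q := by exact_mod_cast hq.1.2.one_lt.le
          rw [div_le_one (by linarith)]
          exact h1
      _ = ((pr a b).filter (fun q => q ≤ N)).card := by
          rw [sum_const, nsmul_eq_mul, mul_one]
      _ ≤ ((range (N + 1)).card : ℝ) := by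
          refine Nat.cast_le.2 (card_le_card fun q hq => ?_)
          rw [mem_filter] at hq
          rw [mem_range]
          omega
      _ = N + 1 := by
          rw [card_range]
          push_cast
          ring
  have h7 : ((d : ℝ) + 1) * (ll b - ll a) - ∑ i ∈ range (d + 1), C2 i ≤
      ∑ q ∈ pr a b, ∑ i ∈ range (d + 1), (np (CyclotomicField (2 ^ i) K) q : ℝ) / q := by
    rw [sum_comm]
    have h9 := sum_le_sum (s := range (d + 1)) fun i _ => hC2 i a b ha hb
    rw [sum_sub_distrib, sum_const, card_range, nsmul_eq_mul] at h9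
    push_cast at h9
    exact h9
  have hsum := h7.trans (sum_le_sum (s := pr a b) fun q hq => hle q (mem_pr.1 hq).2)
  rw [sum_add_distrib, sum_add_distrib, ← mul_sum, ← mul_sum, ← mul_sum] at hsum
  have hF : ∑ q ∈ pr a b, (if G q then (1 : ℝ) / q else 0) =
      ∑ q ∈ (pr a b).filter (fun q => B < q ∧ 0 < np K q ∧ ¬ Odd (orderOf (p : ZMod q))),
        (1 : ℝ) / q := by
    rw [sum_filter]
    refine sum_congr rfl fun q _ => ?_
    have hiff : G q ↔ (B < q ∧ 0 < np K q ∧ ¬ Odd (orderOf (p : ZMod q))) := by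
      rw [hG]
    by_cases h : G q
    · rw [if_pos h, if_pos (hiff.1 h)]
    · rw [if_neg h, if_neg fun h' => h (hiff.2 h')]
  rw [hF] at hsum
  have h8 := mul_le_mul_of_nonneg_left h6 hM0.le
  have h10 : (d : ℝ) * ∑ q ∈ pr a b, (np R q : ℝ) / q ≤ d * ((ll b - ll a) + C1) :=
    mul_le_mul_of_nonneg_left (by linarith) (Nat.cast_nonneg _)
  have h11 : 1 / M * (ll b - ll a) - ((∑ i ∈ range (d + 1), C2 i) + d * C1 + M * (N + 1)) / M =
      ((ll b - ll a) - ((∑ i ∈ range (d + 1), C2 i) + d * C1 + M * (N + 1))) / M := by ring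
  rw [h11, div_le_iff₀ hM0]
  linarith

end Pool.Agent.H37.MT
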