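import Pool.Agent.H37.MT.Top
import Pool.Agent.H37.MT.Ev
import Pool.Agent.H37.MT.SqQ
import Pool.Agent.H37.PS.FinA
import Pool.Agent.H3.PO.Main

/-!
MT Fin: rates for Mann's condition (note 5711; assembly as in H3/PO/Main).
-/

set_option autoImplicit false

namespace Pool.Agent.H37.MT

open Finset Polynomial Pool.Agent.H37.PPC Pool.Agent.H37.PPD Pool.Agent.H37.PB Pool.Agent.H37.PP Pool.Agent.H37.PS
  Pool.Agent.H37.PV Pool.Agent.H24.FD Pool.Agent.H12.ST Pool.Agent.H3.PO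

/-- at most `C Y / (log Y)^δ` elements in every interval of length `Y` -/
def RD (δ : ℝ) (S : Set ℤ) : Prop := ∃ C : ℝ, 0 < C ∧ ∀ (Y : ℕ) (M : ℤ), 3 ≤ Y → ∀ T : Finset ℤ,
  (∀ m ∈ T, M < m ∧ m ≤ M + Y) → (∀ m ∈ T, m ∈ S) → (T.card : ℝ) ≤ C * (Y / Real.log Y ^ δ)

theorem logY {Y : ℕ} (hY : 3 ≤ Y) : 1 ≤ Real.log Y := by
  have h1 : (1 : ℝ) ≤ Real.log 3 := by
    rw [Real.le_log_iff_exp_le (by norm_num)]
    have := Real.exp_one_lt_d9
    linarith
  exact h1.trans (Real.log_le_log (by norm_num) (by exact_mod_cast hY))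

theorem rd_pos {δ : ℝ} {Y : ℕ} (hY : 3 ≤ Y) : 0 < (Y : ℝ) / Real.log Y ^ δ := by
  have h2 := logY hY
  have h3 : (0 : ℝ) < Y := by exact_mod_cast (by omega : 0 < Y)
  positivity

theorem RD.mono {δ : ℝ} {S T : Set ℤ} (h : RD δ T) (hST : S ⊆ T) : RD δ S := by
  obtain ⟨C, hC, H⟩ := h
  exact ⟨C, hC, fun Y M hY U hU hUS => H Y M hY U hU fun m hm => hST (hUS m hm)⟩

theorem RD.le {δ δ' : ℝ} (hδ : δ' ≤ δ) {S : Set ℤ} (h : RD δ S) : RD δ' S := by
  obtain ⟨C, hC, H⟩ := h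
  refine ⟨C, hC, fun Y M hY U hU hUS => (H Y M hY U hU hUS).trans ?_⟩
  have h2 := logY hY
  apply mul_le_mul_of_nonneg_left _ hC.le
  apply div_le_div_of_nonneg_left (Nat.cast_nonneg _) (by positivity)
  exact Real.rpow_le_rpow_of_exponent_le h2 hδ

theorem RD.union {δ : ℝ} {S T : Set ℤ} (h : RD δ S) (h' : RD δ T) : RD δ (S ∪ T) := by
  classical
  obtain ⟨C, hC, H⟩ := h
  obtain ⟨C', hC', H'⟩ := h'
  refine ⟨C + C', by positivity, fun Y M hY U hU hUS => ?_⟩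
  have h1 := H Y M hY (U.filter fun m => m ∈ S) (fun m hm => hU m (mem_filter.1 hm).1)
    (fun m hm => (mem_filter.1 hm).2)
  have h2 := H' Y M hY (U.filter fun m => m ∈ T) (fun m hm => hU m (mem_filter.1 hm).1)
    (fun m hm => (mem_filter.1 hm).2)
  have h3 : U ⊆ (U.filter fun m => m ∈ S) ∪ (U.filter fun m => m ∈ T) := by
    intro m hm
    rw [mem_union, mem_filter, mem_filter]
    rcases hUS m hm with h | h
    · exact Or.inl ⟨hm, h⟩
    · exact Or.inr ⟨hm, h⟩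
  have h4 : (U.card : ℝ) ≤ ((U.filter fun m => m ∈ S).card : ℝ) + ((U.filter fun m => m ∈ T).card : ℝ) := by
    have := (card_le_card h3).trans (card_union_le _ _)
    exact_mod_cast this
  rw [add_mul]
  linarith

theorem RD_finite {δ : ℝ} (hδ1 : δ ≤ 1) {S : Set ℤ} (h : S.Finite) : RD δ S := by
  refine ⟨h.toFinset.card + 1, by positivity, fun Y M hY U _ hUS => ?_⟩
  have h1 : U ⊆ h.toFinset := fun m hm => h.mem_toFinset.2 (hUS m hm)
  have h2 : (U.card : ℝ) ≤ h.toFinset.card := by exact_mod_cast card_le_card h1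
  have h4 : (0 : ℝ) ≤ h.toFinset.card := Nat.cast_nonneg _
  have h5 := logY hY
  have h6 : Real.log Y ^ δ ≤ Real.log Y ^ (1 : ℝ) := Real.rpow_le_rpow_of_exponent_le h5 hδ1
  rw [Real.rpow_one] at h6
  have h7 : (0 : ℝ) < Y := by exact_mod_cast (by omega : 0 < Y)
  have h8 : Real.log Y ≤ Y := by
    have := Real.log_le_sub_one_of_pos h7
    linarith
  have h9 : 1 ≤ (Y : ℝ) / Real.log Y ^ δ := by
    rw [le_div_iff₀ (by positivity)]
    linarith
  nlinarith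

/-- the first case -/
theorem keyR (f h H : ℤ[X]) (hi : Irreducible h) (hd : 1 ≤ h.natDegree) (Hi : Irreducible H) (Hd : 1 ≤ H.natDegree)
    (hhf : h ∣ f) (hHf : H ∣ f ^ 2 + f + 1) (B : ℕ)
    (A1 : ∀ p : ℕ, p.Prime → B < p → ∀ (m : ℤ) (n : ℕ), (n : ℤ) = f.eval m → 2 ≤ n →
      (p : ℤ) ∣ h.eval m → ¬ (p : ℤ) ^ 2 ∣ h.eval m → Odd (padicValNat p n))
    (A2 : ∀ q : ℕ, q.Prime → B < q → ∀ (m : ℤ) (n : ℕ), (n : ℤ) = f.eval m → 2 ≤ n →
      (q : ℤ) ∣ H.eval m → ¬ (q : ℤ) ^ 2 ∣ H.eval m → Odd (padicValNat q (n ^ 2 + n + 1))) : RD 1 (SG f) := by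
  classical
  have hc : ∀ l : ℕ, l.Prime → ∀ m : ℤ, (l : ℤ) ∣ h.eval m → ¬ (l : ℤ) ∣ H.eval m := by
    intro l hl m h1 h2
    obtain ⟨k, hk⟩ := hhf
    obtain ⟨k', hk'⟩ := hHf
    have h3 : (l : ℤ) ∣ f.eval m := by
      rw [hk, eval_mul]
      exact h1.mul_right _
    have h4 : (l : ℤ) ∣ (f.eval m) ^ 2 + f.eval m + 1 := by
      have h5 : (f.eval m) ^ 2 + f.eval m + 1 = H.eval m * k'.eval m := by
        rw [← eval_mul, ← hk']
        simp
      rw [h5]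
      exact h2.mul_right _
    have h5 : (l : ℤ) ∣ (f.eval m) ^ 2 + f.eval m := by
      have : (f.eval m) ^ 2 + f.eval m = f.eval m * (f.eval m + 1) := by ring
      rw [this]
      exact h3.mul_right _
    have h6 : (l : ℤ) ∣ 1 := (Int.dvd_add_right h5).1 h4
    have h7 : l ∣ 1 := by exact_mod_cast h6
    exact hl.one_lt.ne' (Nat.dvd_one.1 h7)
  obtain ⟨b, hb⟩ := exists_nonroot (mul_ne_zero hi.ne_zero Hi.ne_zero)
  rw [eval_mul] at hb
  have hbh : h.eval b ≠ 0 := left_ne_zero_of_mul hb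
  have hbg : H.eval b ≠ 0 := right_ne_zero_of_mul hb
  obtain ⟨B0, hB0⟩ : ∃ B0 : ℕ, B0 = B + (h.eval b).natAbs + (H.eval b).natAbs := ⟨_, rfl⟩
  have c1 : Cop B0 (X - C b) h := cop_lin b hbh (by omega)
  have c2 : Cop B0 (X - C b) H := cop_lin b hbg (by omega)
  obtain ⟨C1, hC1, H1⟩ := coreT false (X - C b) h H (by rw [natDegree_X_sub_C]) hi hd Hi Hd B0 c1 c2
    (fun l hl _ m => hc l hl m)
  refine ⟨C1, hC1, fun Y M hY U hU hUS => ?_⟩
  have b1 := H1 Y M hY U hU (fun h => absurd h (by decide)) (by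
    intro m hm p q hp hq hBp hBq hpd hps hqd hqs hj
    obtain ⟨n, hn, hn2, hgood⟩ := hUS m hm
    have o1 := A1 p hp (by omega) m n hn hn2 hpd hps
    have o2 := A2 q hq (by omega) m n hn hn2 hqd hqs
    refine not_odd_order (p := p) (q := q) ?_ (hgood p q hp hq o1 o2)
    rintro ⟨x, hx⟩
    have hqf : Fact q.Prime := ⟨hq⟩
    have h3 : legendreSym q (p : ℤ) = -1 := by
      rw [← jacobiSym.legendreSym.to_jacobiSym] at hj
      exact hj
    rw [legendreSym.eq_neg_one_iff] at h3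
    exact h3 ⟨x, by push_cast; exact hx⟩)
  refine b1.trans (le_of_eq ?_)
  rw [ex_false, pow_one, Real.rpow_one]

/-- an irreducible factor of odd multiplicity of `f ^ 2 + f + 1` -/
theorem exists_H' (f : ℤ[X]) (hf : 1 ≤ f.natDegree) : ∃ (H : ℤ[X]) (B : ℕ), Irreducible H ∧ 1 ≤ H.natDegree ∧
    H ∣ f ^ 2 + f + 1 ∧
    ∀ q : ℕ, q.Prime → B < q → ∀ (m : ℤ) (n : ℕ), (n : ℤ) = f.eval m →
      (q : ℤ) ∣ H.eval m → ¬ (q : ℤ) ^ 2 ∣ H.eval m → Odd (padicValNat q (n ^ 2 + n + 1)) := by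
  have hF0 : f ^ 2 + f + 1 ≠ 0 := by
    intro h
    have h1 := natDegree_F f hf
    rw [h, natDegree_zero] at h1
    omega
  rcases odd_or_square _ hF0 with ⟨H, K, E, Hi, Hd, HE, hfe, hK⟩ | ⟨c, g, hc⟩
  · obtain ⟨B, hB⟩ := coprime_part H K Hi Hd hK
    have hE0 : E ≠ 0 := by
      rintro rfl
      exact Nat.not_odd_zero HE
    refine ⟨H, B, Hi, Hd, by rw [hfe]; exact (dvd_pow_self H hE0).mul_right K, fun q hq hBq m n hn h1 h2 => ?_⟩
    refine odd_val _ H K E HE hfe q hq m (n ^ 2 + n + 1) ?_ (by omega) h1 h2 (hB q hq hBq m h1)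
    push_cast
    rw [hn]
    simp
  · exact absurd hc (not_const_sq f hf c g)

/-- an irreducible factor of odd multiplicity -/
theorem case_oddR (f h k : ℤ[X]) (e : ℕ) (hf : 1 ≤ f.natDegree) (hi : Irreducible h) (hd : 1 ≤ h.natDegree)
    (he : Odd e) (hfe : f = h ^ e * k) (hk : ¬ h ∣ k) : RD 1 (SG f) := by
  obtain ⟨B, hB⟩ := coprime_part h k hi hd hk
  obtain ⟨H, B', Hi, Hd, hHf, hH⟩ := exists_H' f hf
  have he0 : e ≠ 0 := by
    rintro rfl
    exact Nat.not_odd_zero he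
  refine keyR f h H hi hd Hi Hd (by rw [hfe]; exact (dvd_pow_self h he0).mul_right k) hHf (max B B')
    (fun p hp hBp m n hn hn2 h1 h2 => ?_)
    (fun q hq hBq m n hn hn2 h1 h2 => hH q hq (lt_of_le_of_lt (le_max_right _ _) hBq) m n hn h1 h2)
  exact odd_val f h k e he hfe p hp m n hn (by omega) h1 h2 (hB p hp (lt_of_le_of_lt (le_max_left _ _) hBp) m h1)

/-- a constant whose absolute value is not a square times a square -/
theorem case_sqR (c : ℤ) (g : ℤ[X]) (hf : 1 ≤ (C c * g ^ 2).natDegree) (hc : ¬ IsSquare c.natAbs) :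
    ∃ δ : ℝ, 0 < δ ∧ δ ≤ 1 ∧ RD δ (SG (C c * g ^ 2)) := by
  classical
  obtain ⟨p, hp, hpc⟩ := exists_odd_val _ hc
  have hpf : Fact p.Prime := ⟨hp⟩
  obtain ⟨H, B, Hi, Hd, -, hH⟩ := exists_H' _ hf
  obtain ⟨K, hK1, hK2, B3, hB3⟩ := root_of_np H Hd
  obtain ⟨B4, hB4⟩ : ∃ B4 : ℕ, B4 = max B B3 := ⟨_, rfl⟩
  have hle : B ≤ B4 ∧ B3 ≤ B4 := by
    rw [hB4]
    exact ⟨le_max_left _ _, le_max_right _ _⟩
  obtain ⟨δ, C0, hδ, hδ1, hs⟩ := even_mert K p hp B4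
  refine ⟨δ, hδ, hδ1, ?_⟩
  obtain ⟨C1, hC1, HC⟩ := sq_Q H Hi Hd B4 (fun q => B4 < q ∧ 0 < np K q ∧ ¬ Odd (orderOf (p : ZMod q)))
    (fun q hq hBq hQ => hB3 q hq (by omega) hQ.2.1) δ C0 hδ hδ1 (by convert hs)
  refine ⟨C1, hC1, fun Y M hY U hU hUS => HC Y M hY U hU ?_⟩
  intro m hm q hq hBq hQ hqH
  by_contra hcon
  obtain ⟨n, hn, hn2, hgood⟩ := hUS m hm
  refine hQ.2.2 (hgood p q hp hq ?_ (hH q hq (by omega) m n hn hqH hcon))
  have hfm : (n : ℤ) = c * g.eval m ^ 2 := by rw [hn]; simp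
  have hnn : n = c.natAbs * (g.eval m).natAbs ^ 2 := by
    have h1 := congrArg Int.natAbs hfm
    rw [Int.natAbs_natCast, Int.natAbs_mul, Int.natAbs_pow] at h1
    exact h1
  have hc0 : c.natAbs ≠ 0 := by
    intro h
    rw [h, zero_mul] at hnn
    omega
  have hg0 : (g.eval m).natAbs ≠ 0 := by
    intro h
    rw [h] at hnn
    have : n = 0 := by rw [hnn]; ring
    omega
  rw [hnn, padicValNat.mul hc0 (pow_ne_zero 2 hg0), padicValNat.pow]
  exact hpc.add_even ⟨padicValNat p (g.eval m).natAbs, by ring⟩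

theorem sgR (f : ℤ[X]) (hf1 : 1 ≤ f.natDegree) (hf : ∀ g : ℤ[X], f ≠ g ^ 2 ∧ f ≠ -g ^ 2) :
    ∃ δ : ℝ, 0 < δ ∧ δ ≤ 1 ∧ ((∀ (c : ℤ) (g : ℤ[X]), f ≠ C c * g ^ 2) → δ = 1) ∧ RD δ (SG f) := by
  have hf0 : f ≠ 0 := by
    rintro rfl
    rw [natDegree_zero] at hf1
    omega
  rcases odd_or_square f hf0 with ⟨h, k, e, hi, hd, he, hfe, hk⟩ | ⟨c, g, hfc⟩
  · exact ⟨1, one_pos, le_rfl, fun _ => rfl, case_oddR f h k e hf1 hi hd he hfe hk⟩
  · obtain ⟨δ, hδ, hδ1, H⟩ := case_sqR c g (by rw [← hfc]; exact hf1) (by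
      rintro ⟨b, hb⟩
      have h1 : c = (b : ℤ) ^ 2 ∨ c = -(b : ℤ) ^ 2 := by
        have h2 : ((c.natAbs : ℕ) : ℤ) = (b : ℤ) ^ 2 := by
          rw [hb]
          push_cast
          ring
        rcases Int.natAbs_eq c with h | h
        · left
          rw [h, h2]
        · right
          rw [h, h2]
      rcases h1 with h1 | h1
      · apply (hf (C (b : ℤ) * g)).1
        rw [hfc, h1, C_pow]
        ring
      · apply (hf (C (b : ℤ) * g)).2
        rw [hfc, h1, C_neg, C_pow]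
        ring)
    refine ⟨δ, hδ, hδ1, fun hno => absurd hfc (hno c g), ?_⟩
    rw [hfc]
    exact H

theorem mainR (f : ℤ[X]) (hf1 : 1 ≤ f.natDegree) (hf : ∀ g : ℤ[X], f ≠ g ^ 2 ∧ f ≠ -g ^ 2) :
    ∃ δ : ℝ, 0 < δ ∧ ((∀ (c : ℤ) (g : ℤ[X]), f ≠ C c * g ^ 2) → δ = 1) ∧ RD δ {m : ℤ | MannGood (f.eval m).natAbs} := by
  have hf0 : f ≠ 0 := by
    rintro rfl
    rw [natDegree_zero] at hf1
    omega
  have hfin : {m : ℤ | (f * (f - 1) * (f + 1)).eval m = 0}.Finite := by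
    have h0 : f * (f - 1) * (f + 1) ≠ 0 := by
      have h1 : ∀ a : ℤ, f + C a ≠ 0 := by
        intro a h
        have h2 : f = C (-a) := by
          rw [C_neg]
          exact eq_neg_of_add_eq_zero_left h
        rw [h2, natDegree_C] at hf1
        omega
      have e2 := h1 (-1)
      have e3 := h1 1
      rw [C_neg, C_1, ← sub_eq_add_neg] at e2
      rw [C_1] at e3
      exact mul_ne_zero (mul_ne_zero hf0 e2) e3
    refine (f * (f - 1) * (f + 1)).roots.toFinset.finite_toSet.subset ?_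
    intro m hm
    rw [mem_coe, Multiset.mem_toFinset, mem_roots h0]
    exact hm
  obtain ⟨δ1, hδ1, hδ1', e1, H1⟩ := sgR f hf1 hf
  obtain ⟨δ2, hδ2, hδ2', e2, H2⟩ := sgR (-f) (by rwa [natDegree_neg]) fun g => ⟨fun h => (hf g).2 (by
      rw [← h, neg_neg]), fun h => (hf g).1 (neg_injective h)⟩
  refine ⟨min δ1 δ2, lt_min hδ1 hδ2, fun hno => ?_, ?_⟩
  · rw [e1 hno, e2 (fun c g h => hno (-c) g (by rw [C_neg, neg_mul, ← h, neg_neg])), min_self]
  refine (((H1.le (min_le_left _ _)).union (H2.le (min_le_right _ _))).union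
    (RD_finite ((min_le_left _ _).trans hδ1') hfin)).mono ?_
  intro m hm
  by_cases h1 : (f.eval m).natAbs ≤ 1
  · right
    show (f * (f - 1) * (f + 1)).eval m = 0
    rw [eval_mul, eval_mul, eval_add, eval_sub, eval_one]
    have h2 : f.eval m = 0 ∨ f.eval m = 1 ∨ f.eval m = -1 := by omega
    rcases h2 with h | h | h <;> rw [h] <;> ring
  · left
    rcases le_or_gt 0 (f.eval m) with h5 | h5
    · left
      exact ⟨(f.eval m).natAbs, by rw [Int.natAbs_of_nonneg h5], by omega, hm⟩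
    · right
      refine ⟨(f.eval m).natAbs, ?_, by omega, hm⟩
      rw [eval_neg]
      omega

/-- the intervals `(M, M + Y]` -/
theorem mann_rate (f : ℤ[X]) (hf1 : 1 ≤ f.natDegree) (hf : ∀ g : ℤ[X], f ≠ g ^ 2 ∧ f ≠ -g ^ 2) :
    ∃ C δ : ℝ, 0 < C ∧ 0 < δ ∧ ((∀ (c : ℤ) (g : ℤ[X]), f ≠ Polynomial.C c * g ^ 2) → δ = 1) ∧
      ∀ Y : ℕ, 2 ≤ Y → ∀ M : ℤ,
        ((Set.ncard {m : ℤ | M < m ∧ m ≤ M + Y ∧ MannGood (f.eval m).natAbs} : ℕ) : ℝ) ≤ C * Y / Real.log Y ^ δ := by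
  classical
  obtain ⟨δ, hδ, hδ1, C, hC, H⟩ := mainR f hf1 hf
  refine ⟨C + 2, δ, by positivity, hδ, hδ1, fun Y hY M => ?_⟩
  obtain ⟨U, hU⟩ : ∃ U : Finset ℤ, U = (Finset.Ioc M (M + Y)).filter fun m => MannGood (f.eval m).natAbs := ⟨_, rfl⟩
  have h1 : {m : ℤ | M < m ∧ m ≤ M + Y ∧ MannGood (f.eval m).natAbs} = (U : Set ℤ) := by
    ext m
    rw [hU, coe_filter, Set.mem_ofPred_eq, Set.mem_ofPred_eq, Finset.mem_Ioc, and_assoc]
  rw [h1, Set.ncard_coe_finset, mul_div_assoc]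
  have h3 : (0 : ℝ) < Y := by exact_mod_cast (by omega : 0 < Y)
  have hl : 0 < Real.log Y := Real.log_pos (by exact_mod_cast (by omega : 1 < Y))
  have h4 : 0 < (Y : ℝ) / Real.log Y ^ δ := by positivity
  rcases Nat.lt_or_ge 2 Y with hY3 | hY2
  · have h2 := H Y M hY3 U (by
      intro m hm
      rw [hU, mem_filter, Finset.mem_Ioc] at hm
      exact hm.1) (by
      intro m hm
      rw [hU, mem_filter] at hm
      exact hm.2)
    rw [add_mul]
    linarith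
  · have hY' : Y = 2 := by omega
    have h5 : U.card ≤ Y := card_le_Y (M := M) fun m hm => by
      rw [hU, mem_filter, Finset.mem_Ioc] at hm
      exact hm.1
    have h6 : (U.card : ℝ) ≤ Y := by exact_mod_cast h5
    have h7 : Real.log Y ≤ 1 := by
      rw [hY']
      have := Real.log_two_lt_d9
      push_cast
      linarith
    have h8 : Real.log Y ^ δ ≤ 1 := Real.rpow_le_one hl.le h7 hδ.le
    have h9 : (Y : ℝ) ≤ Y / Real.log Y ^ δ := by
      rw [le_div_iff₀ (by positivity)]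
      nlinarith
    rw [add_mul]
    have h10 : 0 ≤ C * ((Y : ℝ) / Real.log Y ^ δ) := by positivity
    linarith

end Pool.Agent.H37.MT
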