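import Pool.Agent.H37.PS.Sqr

/-!
Project MT (MP_5bfab0_co, note 5711): rates for Mann's condition.
MT Rt: classes `c` modulo `(∏ T)²` with `l² ∣ h1(c)` or `l² ∣ h2(c)` for all `l ∈ T`.  As `roots_sq` (PS/Sqr): `D = h1.natDegree + h2.natDegree`.
-/

set_option autoImplicit false

namespace Pool.Agent.H37.MT

open Finset Polynomial Pool.Agent.H37.PPC Pool.Agent.H37.PPD Pool.Agent.H37.PB Pool.Agent.H37.PP Pool.Agent.H37.PS

private theorem rt_mod (h : ℤ[X]) (m n c : ℕ) (hmn : m ∣ n) (hc : (m : ℤ) ∣ h.eval (c : ℤ)) :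
    (m : ℤ) ∣ h.eval ((c % n : ℕ) : ℤ) := by
  have h2 : ((c : ℤ) - ((c % n : ℕ) : ℤ)) ∣ h.eval (c : ℤ) - h.eval ((c % n : ℕ) : ℤ) :=
    Polynomial.sub_dvd_eval_sub _ _ _
  have h3 : (n : ℤ) ∣ (c : ℤ) - ((c % n : ℕ) : ℤ) := by
    rw [Int.natCast_mod]
    exact Int.dvd_self_sub_emod
  have h4 := dvd_sub hc (((Int.natCast_dvd_natCast.2 hmn).trans h3).trans h2)
  rwa [sub_sub_cancel] at h4

private theorem rt_mod_sq (h : ℤ[X]) (l n c : ℕ) (hmn : l ^ 2 ∣ n) (hc : (l : ℤ) ^ 2 ∣ h.eval (c : ℤ)) :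
    (l : ℤ) ^ 2 ∣ h.eval ((c % n : ℕ) : ℤ) := by
  have h1 := rt_mod h (l ^ 2) n c hmn (by exact_mod_cast hc)
  exact_mod_cast h1

open Classical in
theorem roots_two (h1 h2 : ℤ[X]) (hi1 : Irreducible h1) (hd1 : 1 ≤ h1.natDegree) (hi2 : Irreducible h2)
    (hd2 : 1 ≤ h2.natDegree) :
    ∃ B D : ℕ, 1 ≤ D ∧ ∀ T : Finset ℕ, (∀ l ∈ T, l.Prime ∧ B < l) →
      ((range ((∏ l ∈ T, l) ^ 2)).filter fun c : ℕ =>
        ∀ l ∈ T, (l : ℤ) ^ 2 ∣ h1.eval (c : ℤ) ∨ (l : ℤ) ^ 2 ∣ h2.eval (c : ℤ)).card ≤ D ^ T.card := by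
  obtain ⟨B1, D1, hB1⟩ := roots_sq h1 hi1 hd1
  obtain ⟨B2, D2, hB2⟩ := roots_sq h2 hi2 hd2
  refine ⟨B1 + B2, D1 + D2 + 1, by omega, fun T => ?_⟩
  induction T using Finset.induction_on with
  | empty =>
    intro _
    simp
  | insert l T hlT ih =>
    intro hT
    have hl := hT l (mem_insert_self l T)
    have hT' : ∀ q ∈ T, q.Prime ∧ B1 + B2 < q := fun q hq => hT q (mem_insert_of_mem hq)
    have hcop : Nat.Coprime l (∏ q ∈ T, q) := by
      refine Nat.Coprime.prod_right fun q hq => ?_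
      refine (Nat.coprime_primes hl.1 (hT' q hq).1).2 ?_
      rintro rfl
      exact hlT hq
    have hcop2 : Nat.Coprime (l ^ 2) ((∏ q ∈ T, q) ^ 2) := hcop.pow 2 2
    have hpos : 0 < ∏ q ∈ T, q := prod_pos fun q hq => (hT' q hq).1.pos
    have hl0 : 0 < l ^ 2 := pow_pos hl.1.pos 2
    have hp0 : 0 < (∏ q ∈ T, q) ^ 2 := pow_pos hpos 2
    -- the classes modulo `l²`
    have hone : ((range (l ^ 2)).filter fun c : ℕ =>
        (l : ℤ) ^ 2 ∣ h1.eval (c : ℤ) ∨ (l : ℤ) ^ 2 ∣ h2.eval (c : ℤ)).card ≤ D1 + D2 + 1 := by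
      have e1 := hB1 {l} (by
        intro q hq
        rw [mem_singleton] at hq
        subst hq
        exact ⟨hl.1, by omega⟩)
      have e2 := hB2 {l} (by
        intro q hq
        rw [mem_singleton] at hq
        subst hq
        exact ⟨hl.1, by omega⟩)
      rw [prod_singleton, card_singleton, pow_one] at e1 e2
      have e3 : ((range (l ^ 2)).filter fun c : ℕ =>
          (l : ℤ) ^ 2 ∣ h1.eval (c : ℤ) ∨ (l : ℤ) ^ 2 ∣ h2.eval (c : ℤ)) ⊆
          ((range (l ^ 2)).filter fun c : ℕ => ((l ^ 2 : ℕ) : ℤ) ∣ h1.eval (c : ℤ)) ∪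
          ((range (l ^ 2)).filter fun c : ℕ => ((l ^ 2 : ℕ) : ℤ) ∣ h2.eval (c : ℤ)) := by
        intro c hc
        rw [mem_filter] at hc
        rw [mem_union, mem_filter, mem_filter]
        push_cast
        rcases hc.2 with hc2 | hc2
        · exact Or.inl ⟨hc.1, hc2⟩
        · exact Or.inr ⟨hc.1, hc2⟩
      have e4 := (card_le_card e3).trans (card_union_le _ _)
      omega
    rw [prod_insert hlT, card_insert_of_notMem hlT, mul_pow, pow_succ' (D1 + D2 + 1)]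
    refine le_trans ?_ (Nat.mul_le_mul hone (ih hT'))
    rw [← card_product]
    refine card_le_card_of_injOn (fun c => (c % l ^ 2, c % (∏ q ∈ T, q) ^ 2)) ?_ ?_
    · intro c hc
      simp only [coe_filter, Set.mem_ofPred_eq, mem_range] at hc
      simp only [coe_product, Set.mem_prod, coe_filter, Set.mem_ofPred_eq, mem_range]
      refine ⟨⟨Nat.mod_lt _ hl0, ?_⟩, ⟨Nat.mod_lt _ hp0, ?_⟩⟩
      · rcases hc.2 l (mem_insert_self l T) with hc2 | hc2
        · exact Or.inl (rt_mod_sq h1 l _ c (dvd_refl _) hc2)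
        · exact Or.inr (rt_mod_sq h2 l _ c (dvd_refl _) hc2)
      · intro q hq
        have hdvd : q ^ 2 ∣ (∏ q ∈ T, q) ^ 2 := pow_dvd_pow_of_dvd (dvd_prod_of_mem _ hq) 2
        rcases hc.2 q (mem_insert_of_mem hq) with hc2 | hc2
        · exact Or.inl (rt_mod_sq h1 q _ c hdvd hc2)
        · exact Or.inr (rt_mod_sq h2 q _ c hdvd hc2)
    · intro c hc c' hc' he
      simp only [coe_filter, Set.mem_ofPred_eq, mem_range] at hc hc'
      simp only [Prod.mk.injEq] at he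
      have h3 : c ≡ c' [MOD l ^ 2 * (∏ q ∈ T, q) ^ 2] :=
        (Nat.modEq_and_modEq_iff_modEq_mul hcop2).1 he
      exact Nat.ModEq.eq_of_lt_of_lt h3 hc.1 hc'.1

end Pool.Agent.H37.MT
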