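import Pool.Agent.H37.MT.Core

/-!
MT Top: the count, summed over the sets of squares (note 5711).
-/

set_option autoImplicit false

namespace Pool.Agent.H37.MT

open Finset Polynomial Pool.Agent.H37.PPC Pool.Agent.H37.PPD Pool.Agent.H37.PB Pool.Agent.H37.PP Pool.Agent.H37.PS

theorem log_sqrt' (Y y u : ℕ) (hY : 3 ≤ Y) (hy : 2 ≤ y) (hYy : Y < (y + 1) ^ u) :
    Real.log Y ^ 2 ≤ 32 * (u : ℝ) ^ 2 * Real.sqrt y := by
  have hY0 : (0 : ℝ) < Y := by exact_mod_cast (by omega : 0 < Y)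
  have hL : 0 < Real.log Y := Real.log_pos (by exact_mod_cast (by omega : 1 < Y))
  have hy1 : (2 : ℝ) ≤ y := by exact_mod_cast hy
  have h5 : Real.log Y ≤ u * Real.log ((y + 1 : ℕ) : ℝ) := by
    rw [← Real.log_pow]
    refine Real.log_le_log hY0 ?_
    exact_mod_cast hYy.le
  obtain ⟨v, hv⟩ : ∃ v : ℝ, v = ((y + 1 : ℕ) : ℝ) := ⟨_, rfl⟩
  have hv0 : 0 < v := by
    rw [hv]
    positivity
  have hs0 : 0 < Real.sqrt v := Real.sqrt_pos.2 hv0
  have h4 : Real.log v ≤ 4 * Real.sqrt (Real.sqrt v) := by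
    have h5 : Real.log (Real.sqrt (Real.sqrt v)) ≤ Real.sqrt (Real.sqrt v) := by
      have := Real.log_le_sub_one_of_pos (Real.sqrt_pos.2 hs0)
      linarith
    rw [Real.log_sqrt hs0.le, Real.log_sqrt hv0.le] at h5
    linarith
  have h6 : Real.sqrt (Real.sqrt v) * Real.sqrt (Real.sqrt v) = Real.sqrt v := Real.mul_self_sqrt hs0.le
  have hlv : 0 ≤ Real.log v := by
    rw [hv]
    exact Real.log_natCast_nonneg _
  have h7 : Real.log v ^ 2 ≤ 16 * Real.sqrt v := by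
    calc Real.log v ^ 2 ≤ (4 * Real.sqrt (Real.sqrt v)) ^ 2 := pow_le_pow_left₀ hlv h4 2
      _ = 16 * Real.sqrt v := by
        linear_combination 16 * h6
  have h8 : Real.sqrt v ≤ 2 * Real.sqrt y := by
    rw [Real.sqrt_le_iff]
    refine ⟨by positivity, ?_⟩
    rw [mul_pow, Real.sq_sqrt (by linarith), hv]
    push_cast
    linarith
  rw [← hv] at h5
  calc Real.log Y ^ 2 ≤ (u * Real.log v) ^ 2 := pow_le_pow_left₀ hL.le h5 2
    _ = (u : ℝ) ^ 2 * Real.log v ^ 2 := by ring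
    _ ≤ (u : ℝ) ^ 2 * (16 * (2 * Real.sqrt y)) := by
        refine mul_le_mul_of_nonneg_left (h7.trans ?_) (by positivity)
        linarith
    _ = _ := by ring

theorem ex_le_two (t : Bool) : ex t ≤ 2 := by
  cases t <;> simp [ex]

/-- the contribution of large `y` terms -/
theorem big_conv (t : Bool) {Y y u : ℕ} (hY : 3 ≤ Y) (hy : 2 ≤ y) (hu : 4 ≤ u) (hyY : y ^ u ≤ Y) (hYy : Y < (y + 1) ^ u) :
    Y / Real.sqrt y + y ^ 3 ≤ 64 * (u : ℝ) ^ 2 * ((Y : ℝ) / Real.log Y ^ ex t) := by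
  have hY0 : (0 : ℝ) < Y := by exact_mod_cast (by omega : 0 < Y)
  have hL3 : (1 : ℝ) ≤ Real.log Y := by
    have h1 : (1 : ℝ) ≤ Real.log 3 := by
      rw [Real.le_log_iff_exp_le (by norm_num)]
      have := Real.exp_one_lt_d9
      linarith
    exact h1.trans (Real.log_le_log (by norm_num) (by exact_mod_cast hY))
  have hL : 0 < Real.log Y := by linarith
  have hsy : 0 < Real.sqrt y := Real.sqrt_pos.2 (by exact_mod_cast (by omega : 0 < y))
  have h7 := log_sqrt' Y y u hY hy hYy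
  have hLe : Real.log Y ^ ex t ≤ Real.log Y ^ 2 := pow_le_pow_right₀ hL3 (ex_le_two t)
  have hQ2 : (Y : ℝ) / Real.log Y ^ 2 ≤ (Y : ℝ) / Real.log Y ^ ex t :=
    div_le_div_of_nonneg_left hY0.le (by positivity) hLe
  have h8 : (Y : ℝ) / Real.sqrt y ≤ 32 * (u : ℝ) ^ 2 * ((Y : ℝ) / Real.log Y ^ ex t) := by
    calc (Y : ℝ) / Real.sqrt y ≤ 32 * (u : ℝ) ^ 2 * (Y / Real.log Y ^ 2) := by
          rw [← mul_div_assoc, div_le_div_iff₀ hsy (by positivity)]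
          calc (Y : ℝ) * Real.log Y ^ 2 ≤ Y * (32 * (u : ℝ) ^ 2 * Real.sqrt y) :=
                mul_le_mul_of_nonneg_left h7 hY0.le
            _ = _ := by ring
      _ ≤ _ := mul_le_mul_of_nonneg_left hQ2 (by positivity)
  have h9 : (y : ℝ) ^ 3 ≤ Y / Real.sqrt y := by
    rw [le_div_iff₀ hsy]
    have hy1 : (1 : ℝ) ≤ y := by exact_mod_cast (by omega : 1 ≤ y)
    have h10 : Real.sqrt y ≤ y := by
      rw [Real.sqrt_le_iff]
      exact ⟨by linarith, by nlinarith⟩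
    have h11 : (y : ℝ) ^ 4 ≤ Y := by
      have h12 : y ^ 4 ≤ Y := (Nat.pow_le_pow_right (by omega) hu).trans hyY
      exact_mod_cast h12
    calc (y : ℝ) ^ 3 * Real.sqrt y ≤ (y : ℝ) ^ 3 * y := mul_le_mul_of_nonneg_left h10 (by positivity)
      _ = (y : ℝ) ^ 4 := by ring
      _ ≤ Y := h11
  linarith

theorem coreT (t : Bool) (h0 h1 h2 : ℤ[X]) (hd0 : 1 ≤ h0.natDegree) (hi1 : Irreducible h1) (hd1 : 1 ≤ h1.natDegree)
    (hi2 : Irreducible h2) (hd2 : 1 ≤ h2.natDegree)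
    (B0 : ℕ) (hc01 : Cop B0 h0 h1) (hc02 : Cop B0 h0 h2) (hc12 : Cop B0 h1 h2) :
    ∃ C : ℝ, 0 < C ∧ ∀ (Y : ℕ) (M : ℤ), 3 ≤ Y → ∀ S : Finset ℤ, (∀ m ∈ S, M < m ∧ m ≤ M + Y) →
      (t = true → ∀ m ∈ S, ∀ l : ℕ, l.Prime → l ^ 2 ≤ Y → ¬ (l : ℤ) ∣ h0.eval m) →
      (∀ m ∈ S, Jc h1 h2 B0 m) →
      (S.card : ℝ) ≤ C * ((Y : ℝ) / Real.log Y ^ ex t) := by
  classical
  obtain ⟨B', D', C', w0, hw0⟩ := exists_wt h0 hd0
  obtain ⟨B1, D1, C1, w1, hw1⟩ := exists_wt h1 hd1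
  obtain ⟨B2, D2, C2, w2, hw2⟩ := exists_wt h2 hd2
  obtain ⟨B3, Dr, hDr1, hDr⟩ := roots_two h1 h2 hi1 hd1 hi2 hd2
  obtain ⟨B4, Cl, hCl, HL⟩ := large_T h1 h2 hi1 hd1 hi2 hd2
  obtain ⟨D, hD⟩ : ∃ D : ℕ, D = D' + D1 + D2 := ⟨_, rfl⟩
  obtain ⟨B, hB⟩ : ∃ B : ℕ, B = B0 + B' + B1 + B2 + B3 + B4 + 3 * D + 2 := ⟨_, rfl⟩
  obtain ⟨C, hC⟩ : ∃ C : ℝ, C = max C' (max C1 C2) := ⟨_, rfl⟩
  have hCop : ∀ h h' : ℤ[X], Cop B0 h h' → Cop B h h' := fun h h' hh l hl hBl => hh l hl (by omega)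
  have T : Tr h0 h1 h2 B D C w0 w1 w2 :=
    ⟨hCop _ _ hc01, hCop _ _ hc02, hCop _ _ hc12,
      hw0.mono (by omega) (by omega) (by rw [hC]; exact le_max_left _ _),
      hw1.mono (by omega) (by omega) (by rw [hC]; exact (le_max_left _ _).trans (le_max_right _ _)),
      hw2.mono (by omega) (by omega) (by rw [hC]; exact (le_max_right _ _).trans (le_max_right _ _)),
      by omega, by omega⟩
  have hcls : ∀ U : Finset ℕ, (∀ l ∈ U, l.Prime ∧ B < l) → (cls h1 h2 U).card ≤ Dr ^ U.card := by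
    intro U hU
    have h5 := hDr U fun l hl => ⟨(hU l hl).1, by have := (hU l hl).2; omega⟩
    unfold cls SqD
    convert h5
  obtain ⟨Ka, hKa, sa, hsa, HA⟩ := count_noneU t T Dr hcls
  obtain ⟨Kb, hKb, sb, hsb, HB⟩ := count_pairU t T Dr hcls
  obtain ⟨E, hE⟩ : ∃ E : ℝ, E = Dr * Real.exp (3 * D) := ⟨_, rfl⟩
  have hE0 : 0 ≤ E := by rw [hE]; positivity
  rw [← hE] at HA HB
  obtain ⟨CE, hCE, HE⟩ := sums_sqf E hE0
  have P1 : ∀ l l' N : ℕ, l.Prime → l'.Prime → 2 < l → 2 < l' → l ≠ l' →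
      |∑ m ∈ Icc 1 N, ch1 l m * ch1 l' m| ≤ 4 * l * l' := by
    intro l l' N hl hl' _ _ hne
    exact psi_prod l l' N hl hl' hne
  have P2 : ∀ l l' N : ℕ, l.Prime → l'.Prime → 2 < l → 2 < l' → l ≠ l' →
      |∑ m ∈ Icc 1 N, ch2 l m * ch2 l' m| ≤ 4 * l * l' := by
    intro l l' N hl hl' h2 h2' hne
    exact jac_prod l l' N hl hl' hne h2 h2'
  obtain ⟨k1, hk1, HU⟩ := W_sums ch1 w1 D T.W1.nn T.W1.le ch1_abs ch1_mul P1
  obtain ⟨k2, hk2, HV⟩ := W_sums ch2 w2 D T.W2.nn T.W2.le ch2_abs ch2_mul P2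
  obtain ⟨k3, hk3, HE1⟩ := lb_sum ch1 (fun l m => (jacobiSym (l : ℤ) m : ℝ)) w1 D T.W1.nn T.W1.le
    (fun l m => by rcases jacobiSym.trichotomy (l : ℤ) m with h | h | h <;> rw [h] <;> norm_num)
    (fun l m hl hm hl2 hm2 => by
      unfold ch1 psi
      rw [if_pos (hm.odd_of_ne_two (by omega))])
    (fun q q' N hq hq' h2 h2' hne => jac_prod q q' N hq hq' hne h2 h2')
  obtain ⟨k4, hk4, HE2⟩ := lb_sum ch2 (fun l m => psi (m : ℤ) l) w2 D T.W2.nn T.W2.le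
    (fun l m => ch1_abs m l)
    (fun l m hl hm hl2 hm2 => by
      unfold ch2 psi
      rw [if_pos (hl.odd_of_ne_two (by omega))])
    (fun q q' N hq hq' h2 h2' hne => psi_prod q q' N hq hq' hne)
  obtain ⟨k, hk⟩ : ∃ k : ℝ, k = k1 + k2 + k3 + k4 := ⟨_, rfl⟩
  have hk0 : 0 < k := by rw [hk]; positivity
  have mono3 : ∀ (U : ℕ → ℝ) (c : ℝ), c ≤ k → (∀ y : ℕ, 2 ≤ y →
      ∑ p ∈ pr 2 (y + 1), U p * Real.log p / p ≤ c * Real.log y ∧
      ∑ p ∈ pr 2 (y + 1), U p * Real.sqrt (Real.log p) / p ≤ c * Real.sqrt (Real.log y) ∧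
      ∑ p ∈ pr 2 (y + 1), U p / (Real.log p) ^ 2 / p ≤ c) → ∀ y : ℕ, 2 ≤ y →
      ∑ p ∈ pr 2 (y + 1), U p * Real.log p / p ≤ k * Real.log y ∧
      ∑ p ∈ pr 2 (y + 1), U p * Real.sqrt (Real.log p) / p ≤ k * Real.sqrt (Real.log y) ∧
      ∑ p ∈ pr 2 (y + 1), U p / (Real.log p) ^ 2 / p ≤ k := by
    intro U c hc HU y hy
    obtain ⟨a1, a2, a3⟩ := HU y hy
    exact ⟨a1.trans (mul_le_mul_of_nonneg_right hc (Real.log_natCast_nonneg y)),
      a2.trans (mul_le_mul_of_nonneg_right hc (Real.sqrt_nonneg _)), a3.trans hc⟩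
  have HG := sum_GG (W ch1 w1) (W ch2 w2) (W_ge _ _) (W_ge _ _) (LB ch1 w1) (LB ch2 w2) k hk0
    (mono3 _ k1 (by linarith) HU) (mono3 _ k2 (by linarith) HV)
    (fun S hS => (HE1 S hS).trans (by linarith)) (fun S hS => (HE2 S hS).trans (by linarith))
  obtain ⟨Kg, hKg⟩ : ∃ Kg : ℝ, Kg = 9 * k ^ 2 := ⟨_, rfl⟩
  have hKg0 : 0 < Kg := by rw [hKg]; positivity
  rw [← hKg] at HG
  obtain ⟨T0, hT0⟩ : ∃ T : ℕ, T = sa + sb + 6 := ⟨_, rfl⟩
  obtain ⟨C0, hC0, H0⟩ := rs_small t ((B + 2) ^ T0)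
  refine ⟨C0 + Cl * (64 * (T0 : ℝ) ^ 2) + CE * (Ka + Kb * Kg) * (2 * T0) ^ ex t, by positivity, ?_⟩
  intro Y M hY S hSI hS0' hS
  have hr := rs_pos t hY
  have hSY : (S.card : ℝ) ≤ Y := by exact_mod_cast card_le_Y hSI
  by_cases hY0 : Y ≤ (B + 2) ^ T0
  · have h3 := H0 Y hY hY0
    have h4 : 0 ≤ (Cl * (64 * (T0 : ℝ) ^ 2) + CE * (Ka + Kb * Kg) * (2 * T0) ^ ex t) * ((Y : ℝ) / Real.log Y ^ ex t) := by
      positivity
    nlinarith
  push Not at hY0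
  have h2T : 2 ^ T0 ≤ Y := (Nat.pow_le_pow_left (by omega) T0).trans hY0.le
  obtain ⟨y, hy, hyY, hYy⟩ := exists_root T0 Y (by omega) h2T
  have hBy : B + 2 ≤ y := by
    by_contra hlt
    have h3 : (y + 1) ^ T0 ≤ (B + 2) ^ T0 := Nat.pow_le_pow_left (by omega) T0
    omega
  have hconv := rs_conv t (T := T0) (by omega) hy hyY hYy
  have hya : y ^ (sa + 4) ≤ Y := (Nat.pow_le_pow_right (by omega) (by omega)).trans hyY
  have hyb : y ^ (sb + 6) ≤ Y := (Nat.pow_le_pow_right (by omega) (by omega)).trans hyY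
  have hy2 : y ^ 2 ≤ Y := (Nat.pow_le_pow_right (by omega) (by omega)).trans hyY
  have hLy := ll_ge hy
  set P := pr (B + 1) (y + 1) with hP
  have hPp : ∀ l ∈ P, l.Prime ∧ B < l ∧ l ≤ y := by
    intro l hl
    have := mem_pr.1 hl
    exact ⟨this.2, by omega, by omega⟩
  have hPh0 : ∀ m ∈ S, t = true → ∀ l ∈ P, ¬ (l : ℤ) ∣ h0.eval m := by
    intro m hm ht l hl
    have h3 := mem_pr.1 hl
    exact hS0' ht m hm l h3.2 ((Nat.pow_le_pow_left (by omega) 2).trans hy2)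
  obtain ⟨Z, hZ⟩ : ∃ Z : ℝ, Z = Real.exp (-g0 t y) * Real.exp (-ll y) := ⟨_, rfl⟩
  have hZ0 : 0 < Z := by rw [hZ]; positivity
  have hEl : Real.exp (-(2 * ll y)) * Real.log y = Real.exp (-ll y) := by
    rw [← exp_ll hy, ← Real.exp_add]
    congr 1
    ring
  -- one set `U`
  have hone : ∀ U : Finset ℕ, U ⊆ P → ∏ l ∈ U, l ≤ y ^ 2 → ∀ S' : Finset ℤ, S' ⊆ S →
      (∀ m ∈ S', SqD h1 h2 U m ∧ ∀ l ∈ P \ U, ¬ (l : ℤ) ^ 2 ∣ h1.eval m ∧ ¬ (l : ℤ) ^ 2 ∣ h2.eval m) →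
      (S'.card : ℝ) ≤ (Ka + Kb * Kg) * (fU E U * Y) * Z := by
    intro U hU hUy S' hSS hS'
    have hfU : 0 ≤ fU E U * Y := by
      have := fU_nonneg hE0 U
      positivity
    set S0 : Finset ℤ := S'.filter (fun m => (∀ l ∈ P \ U, ¬ (l : ℤ) ∣ h1.eval m) ∨
      (∀ l ∈ P \ U, ¬ (l : ℤ) ∣ h2.eval m)) with hS0
    obtain ⟨Pp, hPp'⟩ : ∃ Pp : ℕ → ℕ → ℤ → Prop, ∀ p q m, Pp p q m ↔ ((p : ℤ) ∣ h1.eval m ∧ (q : ℤ) ∣ h2.eval m ∧
      (∀ l ∈ pr (p + 1) (y + 1) \ U, ¬ (l : ℤ) ∣ h1.eval m) ∧ (∀ l ∈ pr (q + 1) (y + 1) \ U, ¬ (l : ℤ) ∣ h2.eval m)) :=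
      ⟨_, fun p q m => Iff.rfl⟩
    set Sp : ℕ → ℕ → Finset ℤ := fun p q => S'.filter (Pp p q) with hSp
    have hcov : S' ⊆ S0 ∪ (P \ U).biUnion (fun p => (P \ U).biUnion (fun q => Sp p q)) := by
      intro m hm
      rw [mem_union]
      by_cases h3 : (∀ l ∈ P \ U, ¬ (l : ℤ) ∣ h1.eval m) ∨ (∀ l ∈ P \ U, ¬ (l : ℤ) ∣ h2.eval m)
      · left
        rw [hS0, mem_filter]
        exact ⟨hm, h3⟩
      · right
        push Not at h3
        obtain ⟨⟨l1, hl1, hd1'⟩, ⟨l2, hl2, hd2'⟩⟩ := h3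
        have hmax : ∀ h : ℤ[X], (∃ l ∈ P \ U, (l : ℤ) ∣ h.eval m) → ∃ p ∈ P \ U, (p : ℤ) ∣ h.eval m ∧
            ∀ l ∈ pr (p + 1) (y + 1) \ U, ¬ (l : ℤ) ∣ h.eval m := by
          rintro h ⟨l, hl, hd⟩
          have hne : ((P \ U).filter fun l : ℕ => (l : ℤ) ∣ h.eval m).Nonempty := ⟨l, mem_filter.2 ⟨hl, hd⟩⟩
          obtain ⟨p, hp, hpm⟩ := ((P \ U).filter fun l : ℕ => (l : ℤ) ∣ h.eval m).exists_max_image id hne
          rw [mem_filter] at hp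
          refine ⟨p, hp.1, hp.2, fun l' hl' hd' => ?_⟩
          have h4 := mem_pr.1 (mem_sdiff.1 hl').1
          have h5 := mem_pr.1 (mem_sdiff.1 hp.1).1
          have h6 : l' ∈ (P \ U).filter fun l : ℕ => (l : ℤ) ∣ h.eval m := by
            rw [mem_filter]
            exact ⟨mem_sdiff.2 ⟨mem_pr.2 ⟨⟨by omega, h4.1.2⟩, h4.2⟩, (mem_sdiff.1 hl').2⟩, hd'⟩
          have h7 : l' ≤ p := hpm l' h6
          omega
        obtain ⟨p, hp, hpd, hpm⟩ := hmax h1 ⟨l1, hl1, hd1'⟩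
        obtain ⟨q, hq, hqd, hqm⟩ := hmax h2 ⟨l2, hl2, hd2'⟩
        rw [mem_biUnion]
        refine ⟨p, hp, ?_⟩
        rw [mem_biUnion]
        refine ⟨q, hq, ?_⟩
        show m ∈ S'.filter (Pp p q)
        rw [mem_filter]
        exact ⟨hm, (hPp' p q m).2 ⟨hpd, hqd, hpm, hqm⟩⟩
    have hc0 : (S0.card : ℝ) ≤ Ka * (fU E U * Y) * Z := by
      rw [hZ]
      refine HA Y y M hy hya (by omega) U hU hUy S0 fun m hm => ?_
      rw [hS0, mem_filter] at hm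
      exact ⟨(hSI m (hSS hm.1)).1, (hSI m (hSS hm.1)).2, (hS' m hm.1).1, hPh0 m (hSS hm.1), hm.2⟩
    have hcp : ∀ p ∈ P \ U, ∀ q ∈ P \ U, ((Sp p q).card : ℝ) ≤
        Kb * (fU E U * Y) * (Real.exp (-g0 t y) * Real.exp (-(2 * ll y)) *
          GG (W ch1 w1) (W ch2 w2) (LB ch1 w1) (LB ch2 w2) p q) := by
      intro p hp q hq
      refine HB Y y M hy (by omega) hyb U hU hUy p q hp hq (Sp p q) fun m hm => ?_
      change m ∈ S'.filter (Pp p q) at hm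
      rw [mem_filter, hPp'] at hm
      refine ⟨(hSI m (hSS hm.1)).1, (hSI m (hSS hm.1)).2, (hS' m hm.1).1, hm.2.1, hm.2.2.1, hPh0 m (hSS hm.1),
        hm.2.2.2.1, hm.2.2.2.2, (hS' m hm.1).2, fun p q hp hq hBp hBq => hS m (hSS hm.1) p q hp hq (by omega) (by omega)⟩
    have hcard : (S'.card : ℝ) ≤ S0.card + ∑ p ∈ P \ U, ∑ q ∈ P \ U, ((Sp p q).card : ℝ) := by
      have h3 : S'.card ≤ S0.card + ∑ p ∈ P \ U, ∑ q ∈ P \ U, (Sp p q).card := by
        refine (card_le_card hcov).trans ((card_union_le _ _).trans ?_)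
        refine Nat.add_le_add_left ?_ _
        refine card_biUnion_le.trans (sum_le_sum fun p _ => card_biUnion_le)
      exact_mod_cast h3
    have hGn : ∀ p q : ℕ, p ∈ P → q ∈ P → 0 ≤ GG (W ch1 w1) (W ch2 w2) (LB ch1 w1) (LB ch2 w2) p q := by
      intro p q _ _
      unfold GG
      have i1 := W_ge ch1 w1 q
      have i2 := W_ge ch2 w2 p
      have i3 := Real.log_natCast_nonneg p
      have i4 := Real.log_natCast_nonneg q
      have i5 : (0 : ℝ) ≤ (if LB ch2 w2 p then 1 else 0) := by split_ifs <;> norm_num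
      have i6 : (0 : ℝ) ≤ (if LB ch1 w1 q then 1 else 0) := by split_ifs <;> norm_num
      positivity
    have hsum : ∑ p ∈ P \ U, ∑ q ∈ P \ U, ((Sp p q).card : ℝ) ≤
        Kb * (fU E U * Y) * (Real.exp (-g0 t y) * Real.exp (-(2 * ll y)) * (Kg * Real.log y)) := by
      calc ∑ p ∈ P \ U, ∑ q ∈ P \ U, ((Sp p q).card : ℝ) ≤ ∑ p ∈ P \ U, ∑ q ∈ P \ U,
            Kb * (fU E U * Y) * (Real.exp (-g0 t y) * Real.exp (-(2 * ll y)) *
              GG (W ch1 w1) (W ch2 w2) (LB ch1 w1) (LB ch2 w2) p q) :=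
            sum_le_sum fun p hp => sum_le_sum fun q hq => hcp p hp q hq
        _ = Kb * (fU E U * Y) * (Real.exp (-g0 t y) * Real.exp (-(2 * ll y)) * ∑ p ∈ P \ U, ∑ q ∈ P \ U,
              GG (W ch1 w1) (W ch2 w2) (LB ch1 w1) (LB ch2 w2) p q) := by
            simp only [← mul_sum]
        _ ≤ _ := by
            apply mul_le_mul_of_nonneg_left _ (by positivity)
            apply mul_le_mul_of_nonneg_left _ (by positivity)
            refine le_trans ?_ (HG B y T.hB2 hy)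
            refine (sum_le_sum_of_subset_of_nonneg sdiff_subset fun p hp _ =>
              sum_nonneg fun q hq => hGn p q hp (mem_sdiff.1 hq).1).trans ?_
            exact sum_le_sum fun p hp => sum_le_sum_of_subset_of_nonneg sdiff_subset fun q hq _ => hGn p q hp hq
    have h8 : Kb * (fU E U * Y) * (Real.exp (-g0 t y) * Real.exp (-(2 * ll y)) * (Kg * Real.log y)) =
        Kb * Kg * (fU E U * Y) * Z := by
      rw [hZ, ← hEl]
      ring
    rw [h8] at hsum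
    calc (S'.card : ℝ) ≤ Ka * (fU E U * Y) * Z + Kb * Kg * (fU E U * Y) * Z := by linarith
      _ = _ := by ring
  -- the sets of squares
  obtain ⟨Tm, hTm⟩ : ∃ Tm : ℤ → Finset ℕ, ∀ m, Tm m = P.filter fun l : ℕ =>
    (l : ℤ) ^ 2 ∣ h1.eval m ∨ (l : ℤ) ^ 2 ∣ h2.eval m := ⟨_, fun _ => rfl⟩
  have hTmP : ∀ m, Tm m ⊆ P := by
    intro m
    rw [hTm]
    exact filter_subset _ _
  obtain ⟨Sa, hSa⟩ : ∃ Sa : Finset ℤ, Sa = S.filter fun m => ∏ l ∈ Tm m, l ≤ y ^ 2 := ⟨_, rfl⟩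
  obtain ⟨Sb, hSb⟩ : ∃ Sb : Finset ℤ, Sb = S.filter fun m => ¬ ∏ l ∈ Tm m, l ≤ y ^ 2 := ⟨_, rfl⟩
  have hsplit : (S.card : ℝ) = Sa.card + Sb.card := by
    rw [hSa, hSb]
    exact_mod_cast (card_filter_add_card_filter_not (s := S) (fun m => ∏ l ∈ Tm m, l ≤ y ^ 2)).symm
  have hb : (Sb.card : ℝ) ≤ Cl * (64 * (T0 : ℝ) ^ 2) * ((Y : ℝ) / Real.log Y ^ ex t) := by
    have h1 := HL Y y M hy Sb (by
      intro m hm
      rw [hSb, mem_filter] at hm
      refine ⟨(hSI m hm.1).1, (hSI m hm.1).2, Tm m, ?_, ?_, ?_⟩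
      · intro l hl
        have h3 := hPp l (hTmP m hl)
        exact mem_pr.2 ⟨⟨by omega, by omega⟩, h3.1⟩
      · have h3 := hm.2
        have h4 : y ≤ y ^ 2 := Nat.le_self_pow two_ne_zero y
        omega
      · intro l hl
        rw [hTm, mem_filter] at hl
        exact hl.2)
    have h3 := big_conv t hY hy (by omega : 4 ≤ T0) hyY hYy
    calc (Sb.card : ℝ) ≤ Cl * (Y / Real.sqrt y + y ^ 3) := h1
      _ ≤ Cl * (64 * (T0 : ℝ) ^ 2 * ((Y : ℝ) / Real.log Y ^ ex t)) := mul_le_mul_of_nonneg_left h3 hCl.le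
      _ = _ := by ring
  have ha : (Sa.card : ℝ) ≤ CE * (Ka + Kb * Kg) * (2 * T0) ^ ex t * ((Y : ℝ) / Real.log Y ^ ex t) := by
    have hmap : ∀ m ∈ Sa, Tm m ∈ P.powerset.filter fun U => ∏ l ∈ U, l ≤ y ^ 2 := by
      intro m hm
      rw [hSa, mem_filter] at hm
      rw [mem_filter, mem_powerset]
      exact ⟨hTmP m, hm.2⟩
    have hcard : (Sa.card : ℝ) = ∑ U ∈ P.powerset.filter (fun U => ∏ l ∈ U, l ≤ y ^ 2),
        ((Sa.filter fun m : ℤ => Tm m = U).card : ℝ) := by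
      rw [card_eq_sum_card_fiberwise hmap]
      push_cast
      rfl
    have hP2 : P ⊆ pr 2 (y + 1) := by
      intro l hl
      have h3 := hPp l hl
      exact mem_pr.2 ⟨⟨h3.1.two_le, by omega⟩, h3.1⟩
    rw [hcard]
    calc ∑ U ∈ P.powerset.filter (fun U => ∏ l ∈ U, l ≤ y ^ 2), ((Sa.filter fun m : ℤ => Tm m = U).card : ℝ)
        ≤ ∑ U ∈ P.powerset.filter (fun U => ∏ l ∈ U, l ≤ y ^ 2), (Ka + Kb * Kg) * (fU E U * Y) * Z := by
          refine sum_le_sum fun U hU => ?_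
          rw [mem_filter, mem_powerset] at hU
          refine hone U hU.1 hU.2 _ ((filter_subset _ _).trans (by rw [hSa]; exact filter_subset _ _)) ?_
          intro m hm
          rw [mem_filter] at hm
          have h5 := hm.2
          refine ⟨fun l hl => ?_, fun l hl => ?_⟩
          · rw [← h5, hTm, mem_filter] at hl
            exact hl.2
          · rw [mem_sdiff] at hl
            by_contra hcon
            apply hl.2
            rw [← h5, hTm, mem_filter]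
            refine ⟨hl.1, ?_⟩
            by_contra h6
            push Not at h6
            exact hcon h6
      _ ≤ ∑ U ∈ (pr 2 (y + 1)).powerset, (Ka + Kb * Kg) * (fU E U * Y) * Z := by
          refine sum_le_sum_of_subset_of_nonneg (fun U hU => ?_) (fun U _ _ => ?_)
          · rw [mem_filter, mem_powerset] at hU
            exact mem_powerset.2 (hU.1.trans hP2)
          · have := fU_nonneg hE0 U
            positivity
      _ = (Ka + Kb * Kg) * Y * Z * ∑ U ∈ (pr 2 (y + 1)).powerset, fU E U := by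
          rw [mul_sum]
          exact sum_congr rfl fun U _ => by ring
      _ ≤ (Ka + Kb * Kg) * Y * Z * CE := by
          apply mul_le_mul_of_nonneg_left _ (by positivity)
          exact (HE y hy).1
      _ ≤ (Ka + Kb * Kg) * Y * ((2 * T0) ^ ex t / Real.log Y ^ ex t) * CE := by
          apply mul_le_mul_of_nonneg_right _ hCE.le
          apply mul_le_mul_of_nonneg_left _ (by positivity)
          rw [hZ]
          exact hconv
      _ = _ := by ring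
  have h11 : 0 ≤ C0 * ((Y : ℝ) / Real.log Y ^ ex t) := by positivity
  rw [hsplit, add_mul, add_mul]
  linarith

end Pool.Agent.H37.MT
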